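import Pool.Agent.Helper16.BBCover
import Pool.Agent.Helper16.TW1
import Pool.Agent.Helper94.BBNorm
import Pool.Agent.Helper16.H1a
import Pool.Agent.Helper16.TW3

set_option autoImplicit false
set_option linter.style.haveILetI false
set_option linter.unusedSectionVars false

namespace Pool.Agent.Helper69.BBTransfer

open Pool.Agent.Helper16 Pool.Agent.Helper16.BB

section sums

theorem ord_pow {K N : Type} [Field K] [Field N] [Algebra K N] (v : Place K N) {f : N} (hf : f ≠ 0)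
    (n : ℕ) : v.ord (f ^ n) = n * v.ord f := by
  induction n with
  | zero => simp [v.ord_one]
  | succ n ih =>
    rw [pow_succ, v.ord_mul (pow_ne_zero _ hf) hf, ih]
    push_cast
    ring

theorem place_ext {K N : Type} [Field K] [Field N] [Algebra K N] (u v : Place K N)
    (h : ∀ a : N, u.val a ≤ 1 ↔ v.val a ≤ 1) : u = v :=
  Place.ext_val (valuation_eq_of_le u.val v.val u.surj v.surj fun a ha => (h a).2 ha)

theorem transfer_sum {K N N' : Type} [Field K] [Field N] [Field N'] [Algebra K N] [Algebra N N']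
    [Algebra K N'] [IsScalarTower K N N'] (hN : IsFunctionField K N) (hN' : IsFunctionField K N')
    [FiniteDimensional N N'] {Q : Type} [AddCommGroup Q] [Module ℚ Q] (f : N) (hf : f ≠ 0)
    (S : Finset (Place K N)) (hS : ∀ v, v ∈ S ↔ v.ord f ≠ 0) (S' : Finset (Place K N'))
    (hS' : ∀ v, v ∈ S' ↔ v.ord (algebraMap N N' f) ≠ 0) (g : Place K N → Q)
    (g' : Place K N' → Q)
    (hg : ∀ (v' : Place K N') (v : Place K N),
      (∀ a : N, v'.val (algebraMap N N' a) ≤ 1 ↔ v.val a ≤ 1) → g' v' = g v) :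
    ∑ v ∈ S', ((v.ord (algebraMap N N' f) * (v.deg : ℤ) : ℤ) : ℚ) • g' v =
      (Module.finrank N N' : ℚ) • ∑ v ∈ S, ((v.ord f * (v.deg : ℤ) : ℤ) : ℚ) • g v := by
  classical
  have hf' : algebraMap N N' f ≠ 0 := by simpa using hf
  choose T hT1 hT2 using fun w : Place K N =>
    Pool.Agent.Helper94.BB.norm_formula hN hN' w (algebraMap N N' f) hf'
  have hordiff : ∀ (v' : Place K N') (v : Place K N),
      (∀ a : N, v'.val (algebraMap N N' a) ≤ 1 ↔ v.val a ≤ 1) →
      (v'.ord (algebraMap N N' f) = 0 ↔ v.ord f = 0) := by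
    intro v' v h
    rw [v'.ord_eq_zero_iff hf', v.ord_eq_zero_iff hf]
    have h1 := h f
    have h2 := h f⁻¹
    rw [map_inv₀, map_inv₀, map_inv₀, inv_le_one₀ (zero_lt_iff.2 (by simpa using hf')),
      inv_le_one₀ (zero_lt_iff.2 (by simpa using hf))] at h2
    constructor
    · intro h3
      exact le_antisymm (h1.1 h3.le) (h2.1 h3.ge)
    · intro h3
      exact le_antisymm (h1.2 h3.le) (h2.2 h3.ge)
  have hSS : S' = S.biUnion T := by
    ext v'
    rw [hS', Finset.mem_biUnion]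
    constructor
    · intro h
      have h1 : v'.val (algebraMap N N' f) ≠ 1 := fun h0 => h ((v'.ord_eq_zero_iff hf').2 h0)
      obtain ⟨u, hu1, -⟩ := Place.exists_restrict (k := K) (K := K) (L := N) (N := N') v' hN f hf h1
      refine ⟨u, ?_, ?_⟩
      · rw [hS]
        intro h0
        exact h ((hordiff v' u fun a => (hu1 a).symm).2 h0)
      · rw [hT1]
        exact fun a => (hu1 a).symm
    · rintro ⟨u, hu, hv⟩
      rw [hT1] at hv
      rw [hS] at hu
      intro h0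
      exact hu ((hordiff v' u hv).1 h0)
  have hdisj : (S : Set (Place K N)).PairwiseDisjoint T := by
    intro u _ v _ huv
    rw [Function.onFun, Finset.disjoint_left]
    intro v' h1 h2
    rw [hT1] at h1 h2
    exact huv (place_ext u v fun a => (h1 a).symm.trans (h2 a))
  rw [hSS, Finset.sum_biUnion hdisj, Finset.smul_sum]
  refine Finset.sum_congr rfl fun v _ => ?_
  have h1 : ∑ v' ∈ T v, ((v'.ord (algebraMap N N' f) * (v'.deg : ℤ) : ℤ) : ℚ) • g' v' =
      ∑ v' ∈ T v, ((v'.ord (algebraMap N N' f) * (v'.deg : ℤ) : ℤ) : ℚ) • g v := by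
    refine Finset.sum_congr rfl fun v' hv' => ?_
    rw [hg v' v ((hT1 v v').1 hv')]
  rw [h1, ← Finset.sum_smul, smul_smul]
  congr 1
  have h2 := hT2 v
  rw [Algebra.norm_algebraMap, ord_pow v hf] at h2
  have h3 := congrArg (fun z : ℤ => (z : ℚ)) h2
  simp only [Int.cast_sum] at h3
  rw [h3]
  push_cast
  ring

end sums

section uniq

variable {K σ ι : Type} [Field K] [Fintype ι] [DecidableEq ι]
variable {w : σ → ι → ℕ} {I : Set (MvPolynomial σ K)}

/-- Two specialisations of the same point at the same place differ by a scaling and an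
automorphism. -/
theorem isSp_unique {N : Type} [Field N] [Algebra K N] (hN : IsFunctionField K N) (v : Place K N)
    (z : σ → N) (y y' : σ → AlgebraicClosure K) (hy : IsSp w I v z y) (hy' : IsSp w I v z y') :
    ∃ (τ : AlgebraicClosure K ≃ₐ[K] AlgebraicClosure K) (c : ι → AlgebraicClosure K),
      (∀ i, c i ≠ 0) ∧ y' = scale w c (fun j => τ (y j)) := by
  obtain ⟨hpt, φ, c, hc, hr, hyv⟩ := hy
  obtain ⟨hpt', φ', c', hc', hr', hyv'⟩ := hy'
  haveI := v.finite_resField hN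
  obtain ⟨τ, hτ⟩ := PtFunctor.exists_conj φ φ'
  have hτ' : ∀ a, τ (φ a) = φ' a := fun a => DFunLike.congr_fun hτ a
  have h2 : (fun j => τ (y j)) = fun j => φ' (v.res (scale w c z j)) := by
    funext j
    rw [hyv j, hτ']
  have hpt2 : IsPoint w I (fun j => φ' (v.res (scale w c z j))) := by
    rw [← h2]
    exact isPoint_map τ.toAlgHom y hpt
  refine ⟨τ, ?_⟩
  rw [h2]
  set d : ι → N := fun i => c' i / c i with hd
  have hd0 : ∀ i, d i ≠ 0 := fun i => div_ne_zero (hc' i) (hc i)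
  have hcd : scale w d (scale w c z) = scale w c' z := by
    rw [scale_scale]
    congr 1
    funext i
    exact div_mul_cancel₀ _ (hc i)
  -- the quotients of the scaling factors are units
  have key : ∀ (c c' : ι → N) (φ : v.resField →ₐ[K] AlgebraicClosure K), (∀ i, c i ≠ 0) →
      (∀ i, c' i ≠ 0) →
      (∀ j, scale w c' z j ∈ v.ring) → (∀ j, scale w c z j ∈ v.ring) →
      IsPoint w I (fun j => φ (v.res (scale w c z j))) → ∀ i, v.val (c' i / c i) ≤ 1 := by
    intro c c' φ hc hc' hr' hr hp i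
    obtain ⟨j, hj, hj0⟩ := hp.1 i
    have h3 : ∀ e : ι → N, scale w e z j = e i * z j := by
      intro e
      simp only [scale, hj]
      congr 1
      rw [Finset.prod_eq_single i]
      · simp
      · intro b _ hb
        rw [Pi.single_eq_of_ne hb, pow_zero]
      · simp
    have h4 : v.val (c i * z j) = 1 := by
      refine le_antisymm (by rw [← h3]; exact hr j) ?_
      by_contra hlt
      rw [not_le] at hlt
      apply hj0
      change φ (v.res (scale w c z j)) = 0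
      rw [h3, (v.res_eq_zero_iff (by rw [Place.mem_ring]; exact hlt.le)).2 hlt, map_zero]
    have h5 : v.val (c' i * z j) ≤ 1 := by
      rw [← h3]
      exact hr' j
    have h6 : c' i / c i = (c' i * z j) / (c i * z j) := by
      have hz : z j ≠ 0 := by
        intro h0
        rw [h0, mul_zero, map_zero] at h4
        exact zero_ne_one h4
      rw [mul_div_mul_right _ _ hz]
    rw [h6, map_div₀, h4, div_one]
    exact h5
  have hd1 : ∀ i, v.val (d i) ≤ 1 := key c c' φ' hc hc' hr' hr hpt2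
  have hd2 : ∀ i, v.val (c i / c' i) ≤ 1 := by
    refine key c' c φ' hc' hc hr hr' ?_
    have : (fun j => φ' (v.res (scale w c' z j))) = y' := (funext hyv').symm
    rw [this]
    exact hpt'
  have hd3 : ∀ i, v.val (d i) = 1 := by
    intro i
    refine le_antisymm (hd1 i) ?_
    have h3 := hd2 i
    have h4 : c i / c' i = (d i)⁻¹ := by rw [hd, inv_div]
    rw [h4, map_inv₀] at h3
    exact (inv_le_one₀ (zero_lt_iff.2 (by simpa using hd0 i))).1 h3
  refine ⟨fun i => φ' (v.res (d i)), ?_, ?_⟩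
  · intro i h0
    have h1 : v.res (d i) = 0 := by simpa using h0
    rw [v.res_eq_zero_iff (hd1 i), hd3 i] at h1
    exact lt_irrefl _ h1
  · funext j
    rw [hyv' j, ← hcd]
    have h8 : v.res (scale w d (scale w c z) j) =
        (∏ i, v.res (d i) ^ w j i) * v.res (scale w c z j) := by
      have h9 : ∀ s : Finset ι, (∏ i ∈ s, d i ^ w j i) ∈ v.ring ∧
          v.res (∏ i ∈ s, d i ^ w j i) = ∏ i ∈ s, v.res (d i) ^ w j i := by
        classical
        intro s
        induction s using Finset.induction_on with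
        | empty => simp only [Finset.prod_empty]; exact ⟨one_mem _, v.res_one⟩
        | insert i s hi ih =>
          rw [Finset.prod_insert hi, Finset.prod_insert hi]
          have h10 : d i ^ w j i ∈ v.ring := pow_mem (hd1 i) _
          exact ⟨mul_mem h10 ih.1, by rw [v.res_mul h10 ih.1, ih.2, v.res_pow (hd1 i)]⟩
      rw [scale, v.res_mul (h9 Finset.univ).1 (hr j), (h9 Finset.univ).2]
    rw [h8, map_mul, map_prod]
    simp only [map_pow]
    rfl

end uniq

section pull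

variable {K ι : Type} [Field K] [Fintype ι] [DecidableEq ι] {n : ι → ℕ} {m₁ m₂ : ι → ℕ}
variable {P₁ P₂ : MvPolynomial (Base n) K}

/-- The point of `y² = P₁P₂` below a point of `y₁² = P₁`, `y₂² = P₂`. -/
def prodPt {A : Type} [Mul A] (z : Base n ⊕ Fin 2 → A) : Base n ⊕ Unit → A :=
  Sum.elim (fun b => z (Sum.inl b)) (fun _ => z (Sum.inr 0) * z (Sum.inr 1))

/-- The involution `(y₁, y₂) ↦ (-y₁, -y₂)`. -/
def negPt {A : Type} [Neg A] (z : Base n ⊕ Fin 2 → A) : Base n ⊕ Fin 2 → A :=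
  Sum.elim (fun b => z (Sum.inl b)) (fun j => - z (Sum.inr j))

section hom

variable (hP₁ : P₁.IsWeightedHomogeneous (wB n) (2 • m₁))
  (hP₂ : P₂.IsWeightedHomogeneous (wB n) (2 • m₂))

include hP₁ hP₂

theorem hom2 : ∀ j : Fin 2, ((![P₁, P₂] : Fin 2 → MvPolynomial (Base n) K) j).IsWeightedHomogeneous
    (wB n) (2 • (![m₁, m₂] : Fin 2 → ι → ℕ) j) := by
  intro j
  fin_cases j
  · exact hP₁
  · exact hP₂

theorem hom1 : ∀ _ : Unit, (P₁ * P₂).IsWeightedHomogeneous (wB n) (2 • (m₁ + m₂)) := by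
  intro _
  rw [smul_add]
  exact hP₁.mul hP₂

theorem isPoint2_iff {N : Type} [Field N] [Algebra K N] (z : Base n ⊕ Fin 2 → N) :
    IsPoint (wC n ![m₁, m₂]) (eqC ![P₁, P₂]) z ↔
      (∀ i, ∃ a : Fin (n i + 1), z (Sum.inl ⟨i, a⟩) ≠ 0) ∧
      z (Sum.inr 0) ^ 2 = MvPolynomial.aeval (fun b => z (Sum.inl b)) P₁ ∧
      z (Sum.inr 1) ^ 2 = MvPolynomial.aeval (fun b => z (Sum.inl b)) P₂ := by
  rw [isPoint_iff (hom2 hP₁ hP₂), Fin.forall_fin_two]
  rfl

theorem isPoint1_iff {N : Type} [Field N] [Algebra K N] (z : Base n ⊕ Unit → N) :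
    IsPoint (wC n fun _ : Unit => m₁ + m₂) (eqC fun _ : Unit => P₁ * P₂) z ↔
      (∀ i, ∃ a : Fin (n i + 1), z (Sum.inl ⟨i, a⟩) ≠ 0) ∧
      z (Sum.inr ()) ^ 2 = MvPolynomial.aeval (fun b => z (Sum.inl b)) P₁ *
        MvPolynomial.aeval (fun b => z (Sum.inl b)) P₂ := by
  rw [isPoint_iff (hom1 hP₁ hP₂), ← map_mul]
  constructor
  · rintro ⟨h1, h2⟩
    exact ⟨h1, h2 ()⟩
  · rintro ⟨h1, h2⟩
    exact ⟨h1, fun _ => h2⟩

theorem isPoint_prodPt {N : Type} [Field N] [Algebra K N] {z : Base n ⊕ Fin 2 → N}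
    (hz : IsPoint (wC n ![m₁, m₂]) (eqC ![P₁, P₂]) z) :
    IsPoint (wC n fun _ : Unit => m₁ + m₂) (eqC fun _ : Unit => P₁ * P₂) (prodPt z) := by
  rw [isPoint2_iff hP₁ hP₂] at hz
  rw [isPoint1_iff hP₁ hP₂]
  refine ⟨hz.1, ?_⟩
  change (z (Sum.inr 0) * z (Sum.inr 1)) ^ 2 = _
  rw [mul_pow, hz.2.1, hz.2.2]
  rfl

theorem isPoint_negPt {N : Type} [Field N] [Algebra K N] {z : Base n ⊕ Fin 2 → N}
    (hz : IsPoint (wC n ![m₁, m₂]) (eqC ![P₁, P₂]) z) :
    IsPoint (wC n ![m₁, m₂]) (eqC ![P₁, P₂]) (negPt z) := by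
  rw [isPoint2_iff hP₁ hP₂] at hz ⊢
  refine ⟨hz.1, ?_, ?_⟩
  · change (- z (Sum.inr 0)) ^ 2 = _
    rw [neg_sq, hz.2.1]
    rfl
  · change (- z (Sum.inr 1)) ^ 2 = _
    rw [neg_sq, hz.2.2]
    rfl

/-- Existence of a lift of a point in a field with square roots. -/
theorem exists_lift {N : Type} [Field N] [Algebra K N] (z' : Base n ⊕ Unit → N)
    (hz' : IsPoint (wC n fun _ : Unit => m₁ + m₂) (eqC fun _ : Unit => P₁ * P₂) z')
    (h1 : IsSquare (MvPolynomial.aeval (fun b => z' (Sum.inl b)) P₁))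
    (h2 : IsSquare (MvPolynomial.aeval (fun b => z' (Sum.inl b)) P₂)) :
    ∃ z, IsPoint (wC n ![m₁, m₂]) (eqC ![P₁, P₂]) z ∧ prodPt z = z' := by
  rw [isPoint1_iff hP₁ hP₂] at hz'
  obtain ⟨a, ha⟩ := h1
  obtain ⟨b, hb⟩ := h2
  have h3 : z' (Sum.inr ()) ^ 2 = (a * b) ^ 2 := by
    rw [hz'.2, ha, hb]; ring
  have h4 : ∃ b', b' * b' = b * b ∧ a * b' = z' (Sum.inr ()) := by
    rcases sq_eq_sq_iff_eq_or_eq_neg.1 h3 with h | h
    · exact ⟨b, rfl, h.symm⟩
    · exact ⟨-b, by ring, by rw [h]; ring⟩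
  obtain ⟨b', hb', hab⟩ := h4
  refine ⟨Sum.elim (fun b => z' (Sum.inl b)) ![a, b'], ?_, ?_⟩
  · rw [isPoint2_iff hP₁ hP₂]
    refine ⟨hz'.1, ?_, ?_⟩
    · change a ^ 2 = MvPolynomial.aeval (fun b => z' (Sum.inl b)) P₁
      rw [ha, sq]
    · change b' ^ 2 = MvPolynomial.aeval (fun b => z' (Sum.inl b)) P₂
      rw [hb, sq, hb']
  · funext j
    rcases j with j | j
    · rfl
    · exact hab

end hom

theorem scale_prodPt {N : Type} [Field N] (c : ι → N) (z : Base n ⊕ Fin 2 → N) :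
    scale (wC n fun _ : Unit => m₁ + m₂) c (prodPt z) =
      prodPt (scale (wC n ![m₁, m₂]) c z) := by
  funext j
  rcases j with j | j
  · rfl
  · change (∏ i, c i ^ (m₁ i + m₂ i)) * (z (Sum.inr 0) * z (Sum.inr 1)) =
      ((∏ i, c i ^ m₁ i) * z (Sum.inr 0)) * ((∏ i, c i ^ m₂ i) * z (Sum.inr 1))
    simp only [pow_add, Finset.prod_mul_distrib]
    ring

theorem scale_negPt {N : Type} [Field N] (m : Fin 2 → ι → ℕ) (c : ι → N)
    (z : Base n ⊕ Fin 2 → N) :
    scale (wC n m) c (negPt z) = negPt (scale (wC n m) c z) := by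
  funext j
  rcases j with j | j
  · rfl
  · change (∏ i, c i ^ m j i) * (-z (Sum.inr j)) = -((∏ i, c i ^ m j i) * z (Sum.inr j))
    ring

theorem map_prodPt {A B : Type} [Mul A] [Mul B] (φ : A →ₙ* B) (z : Base n ⊕ Fin 2 → A) :
    (fun j => φ (prodPt z j)) = prodPt (fun j => φ (z j)) := by
  funext j
  rcases j with j | j
  · rfl
  · exact map_mul φ _ _

theorem negPt_negPt {A : Type} [Ring A] (z : Base n ⊕ Fin 2 → A) : negPt (negPt z) = z := by
  funext j
  rcases j with j | j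
  · rfl
  · exact neg_neg _

section val

variable (P₁ P₂ m₁ m₂)

/-- The value of the pull-back at a vector. -/
noncomputable def pval (z' : Base n ⊕ Unit → AlgebraicClosure K) :
    Quo (wC n ![m₁, m₂]) (eqC ![P₁, P₂]) :=
  open scoped Classical in
  if h : ∃ z : Base n ⊕ Fin 2 → AlgebraicClosure K,
      IsPoint (wC n ![m₁, m₂]) (eqC ![P₁, P₂]) z ∧ prodPt z = z' then
    cls _ _ h.choose + cls _ _ (negPt h.choose) else 0

/-- The pull-back on the free space. -/
noncomputable def pull0 : ((Base n ⊕ Unit → AlgebraicClosure K) →₀ ℚ) →ₗ[ℚ]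
    Quo (wC n ![m₁, m₂]) (eqC ![P₁, P₂]) :=
  Finsupp.linearCombination ℚ (pval m₁ m₂ P₁ P₂)

variable {P₁ P₂ m₁ m₂}

theorem pull0_single (z : Base n ⊕ Unit → AlgebraicClosure K) (a : ℚ) :
    pull0 m₁ m₂ P₁ P₂ (Finsupp.single z a) = a • pval m₁ m₂ P₁ P₂ z := by
  rw [pull0, Finsupp.linearCombination_single]

variable (hP₁ : P₁.IsWeightedHomogeneous (wB n) (2 • m₁))
  (hP₂ : P₂.IsWeightedHomogeneous (wB n) (2 • m₂))

include hP₁ hP₂

theorem lift_unique {z z' : Base n ⊕ Fin 2 → AlgebraicClosure K}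
    (hz : IsPoint (wC n ![m₁, m₂]) (eqC ![P₁, P₂]) z)
    (hz' : IsPoint (wC n ![m₁, m₂]) (eqC ![P₁, P₂]) z') (h : prodPt z = prodPt z') :
    z' = z ∨ z' = negPt z := by
  rw [isPoint2_iff hP₁ hP₂] at hz hz'
  have hb : ∀ b, z (Sum.inl b) = z' (Sum.inl b) := fun b => congrFun h (Sum.inl b)
  have hb' : (fun b => z (Sum.inl b)) = fun b => z' (Sum.inl b) := funext hb
  have hy : z (Sum.inr 0) * z (Sum.inr 1) = z' (Sum.inr 0) * z' (Sum.inr 1) :=
    congrFun h (Sum.inr ())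
  have h0 : z' (Sum.inr 0) ^ 2 = z (Sum.inr 0) ^ 2 := by rw [hz.2.1, hz'.2.1, hb']
  have h1 : z' (Sum.inr 1) ^ 2 = z (Sum.inr 1) ^ 2 := by rw [hz.2.2, hz'.2.2, hb']
  have ext2 : ∀ u : Base n ⊕ Fin 2 → AlgebraicClosure K, (∀ b, z' (Sum.inl b) = u (Sum.inl b)) →
      z' (Sum.inr 0) = u (Sum.inr 0) → z' (Sum.inr 1) = u (Sum.inr 1) → z' = u := by
    intro u h2 h3 h4
    funext j
    rcases j with j | j
    · exact h2 j
    · fin_cases j
      · exact h3
      · exact h4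
  rcases sq_eq_sq_iff_eq_or_eq_neg.1 h0 with e0 | e0 <;>
    rcases sq_eq_sq_iff_eq_or_eq_neg.1 h1 with e1 | e1
  · exact Or.inl (ext2 _ (fun b => (hb b).symm) e0 e1)
  · rw [e0, e1] at hy
    have h2 : z (Sum.inr 0) * z (Sum.inr 1) + z (Sum.inr 0) * z (Sum.inr 1) = 0 := by
      linear_combination hy
    by_cases h3 : z (Sum.inr 0) = 0
    · right
      refine ext2 _ (fun b => (hb b).symm) ?_ e1
      change z' (Sum.inr 0) = -(z (Sum.inr 0))
      rw [e0, h3, neg_zero]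
    · left
      refine ext2 _ (fun b => (hb b).symm) e0 ?_
      have h4 : z (Sum.inr 1) + z (Sum.inr 1) = 0 := by
        have : z (Sum.inr 0) * (z (Sum.inr 1) + z (Sum.inr 1)) = 0 := by
          linear_combination h2
        exact (mul_eq_zero.1 this).resolve_left h3
      rw [e1]
      linear_combination -h4
  · rw [e0, e1] at hy
    have h2 : z (Sum.inr 0) * z (Sum.inr 1) + z (Sum.inr 0) * z (Sum.inr 1) = 0 := by
      linear_combination hy
    by_cases h3 : z (Sum.inr 1) = 0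
    · right
      refine ext2 _ (fun b => (hb b).symm) e0 ?_
      change z' (Sum.inr 1) = -(z (Sum.inr 1))
      rw [e1, h3, neg_zero]
    · left
      refine ext2 _ (fun b => (hb b).symm) ?_ e1
      have h4 : z (Sum.inr 0) + z (Sum.inr 0) = 0 := by
        have : z (Sum.inr 1) * (z (Sum.inr 0) + z (Sum.inr 0)) = 0 := by
          linear_combination h2
        exact (mul_eq_zero.1 this).resolve_left h3
      rw [e0]
      linear_combination -h4
  · exact Or.inr (ext2 _ (fun b => (hb b).symm) e0 e1)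

theorem pval_prodPt {z : Base n ⊕ Fin 2 → AlgebraicClosure K}
    (hz : IsPoint (wC n ![m₁, m₂]) (eqC ![P₁, P₂]) z) :
    pval m₁ m₂ P₁ P₂ (prodPt z) = cls _ _ z + cls _ _ (negPt z) := by
  have h : ∃ u : Base n ⊕ Fin 2 → AlgebraicClosure K,
      IsPoint (wC n ![m₁, m₂]) (eqC ![P₁, P₂]) u ∧ prodPt u = prodPt z := ⟨z, hz, rfl⟩
  rw [pval, dif_pos h]
  obtain ⟨h1, h2⟩ := h.choose_spec
  generalize h.choose = u at h1 h2 ⊢
  rcases lift_unique hP₁ hP₂ hz h1 h2.symm with rfl | rfl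
  · rfl
  · rw [negPt_negPt, add_comm]

theorem exists_lift_closed (z' : Base n ⊕ Unit → AlgebraicClosure K)
    (hz' : IsPoint (wC n fun _ : Unit => m₁ + m₂) (eqC fun _ : Unit => P₁ * P₂) z') :
    ∃ z, IsPoint (wC n ![m₁, m₂]) (eqC ![P₁, P₂]) z ∧ prodPt z = z' :=
  exists_lift hP₁ hP₂ z' hz' (IsAlgClosed.exists_eq_mul_self _) (IsAlgClosed.exists_eq_mul_self _)

theorem pval_scale (c : ι → AlgebraicClosure K) (hc : ∀ i, c i ≠ 0)
    (z' : Base n ⊕ Unit → AlgebraicClosure K)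
    (hz' : IsPoint (wC n fun _ : Unit => m₁ + m₂) (eqC fun _ : Unit => P₁ * P₂) z') :
    pval m₁ m₂ P₁ P₂ (scale (wC n fun _ : Unit => m₁ + m₂) c z') = pval m₁ m₂ P₁ P₂ z' := by
  obtain ⟨z, hz, rfl⟩ := exists_lift_closed hP₁ hP₂ z' hz'
  have hsc : IsPoint (wC n ![m₁, m₂]) (eqC ![P₁, P₂]) (scale (wC n ![m₁, m₂]) c z) := by
    refine ⟨fun i => ?_, fun Q hQ => ?_⟩
    · obtain ⟨j, h1, h2⟩ := hz.1 i
      exact ⟨j, h1, scale_ne_zero _ c hc z j h2⟩
    · obtain ⟨d, hd⟩ := eqC_hom (hom2 hP₁ hP₂) Q hQ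
      rw [aeval_scale hd, hz.2 Q hQ, mul_zero]
  rw [scale_prodPt, pval_prodPt hP₁ hP₂ hz, pval_prodPt hP₁ hP₂ hsc, ← scale_negPt,
    cls_scale c hc z hz, cls_scale c hc _ (isPoint_negPt hP₁ hP₂ hz)]

theorem pval_conj (τ : AlgebraicClosure K ≃ₐ[K] AlgebraicClosure K)
    (z' : Base n ⊕ Unit → AlgebraicClosure K)
    (hz' : IsPoint (wC n fun _ : Unit => m₁ + m₂) (eqC fun _ : Unit => P₁ * P₂) z') :
    pval m₁ m₂ P₁ P₂ (fun j => τ (z' j)) = pval m₁ m₂ P₁ P₂ z' := by
  obtain ⟨z, hz, rfl⟩ := exists_lift_closed hP₁ hP₂ z' hz'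
  have h1 : IsPoint (wC n ![m₁, m₂]) (eqC ![P₁, P₂]) (fun j => τ (z j)) :=
    isPoint_map τ.toAlgHom z hz
  have h2 : (fun j => τ (prodPt z j)) = prodPt (fun j => τ (z j)) := by
    funext j
    rcases j with j | j
    · rfl
    · exact map_mul τ _ _
  have h3 : negPt (fun j => τ (z j)) = fun j => τ (negPt z j) := by
    funext j
    rcases j with j | j
    · rfl
    · exact (map_neg τ _).symm
  rw [h2, pval_prodPt hP₁ hP₂ hz, pval_prodPt hP₁ hP₂ h1, h3, cls_conj τ z hz,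
    cls_conj τ _ (isPoint_negPt hP₁ hP₂ hz)]

/-- The pull-back is constant on the specialisations of a point at a place. -/
theorem pval_isSp_eq {N : Type} [Field N] [Algebra K N] (hN : IsFunctionField K N)
    (v : Place K N) (x : Base n ⊕ Unit → N) (y y' : Base n ⊕ Unit → AlgebraicClosure K)
    (hy : IsSp (wC n fun _ : Unit => m₁ + m₂) (eqC fun _ : Unit => P₁ * P₂) v x y)
    (hy' : IsSp (wC n fun _ : Unit => m₁ + m₂) (eqC fun _ : Unit => P₁ * P₂) v x y') :
    pval m₁ m₂ P₁ P₂ y' = pval m₁ m₂ P₁ P₂ y := by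
  obtain ⟨τ, c, hc, rfl⟩ := isSp_unique hN v x y y' hy hy'
  have hpt : IsPoint (wC n fun _ : Unit => m₁ + m₂) (eqC fun _ : Unit => P₁ * P₂)
      (fun j => τ (y j)) := isPoint_map τ.toAlgHom y hy.1
  rw [pval_scale hP₁ hP₂ c hc _ hpt, pval_conj hP₁ hP₂ τ y hy.1]

/-- Specialisation above and below. -/
theorem pval_sp {N N' : Type} [Field N] [Field N'] [Algebra K N] [Algebra N N']
    [Algebra K N'] [IsScalarTower K N N'] (hN : IsFunctionField K N) (hN' : IsFunctionField K N')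
    (v' : Place K N') (v : Place K N)
    (hv : ∀ a : N, v'.val (algebraMap N N' a) ≤ 1 ↔ v.val a ≤ 1)
    (x : Base n ⊕ Unit → N) (z : Base n ⊕ Fin 2 → N')
    (hz : IsPoint (wC n ![m₁, m₂]) (eqC ![P₁, P₂]) z)
    (hxz : ∀ j, algebraMap N N' (x j) = prodPt z j)
    (y : Base n ⊕ Unit → AlgebraicClosure K)
    (hy : IsSp (wC n fun _ : Unit => m₁ + m₂) (eqC fun _ : Unit => P₁ * P₂) v x y)
    (yp ym : Base n ⊕ Fin 2 → AlgebraicClosure K)
    (hyp : IsSp (wC n ![m₁, m₂]) (eqC ![P₁, P₂]) v' z yp)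
    (hym : IsSp (wC n ![m₁, m₂]) (eqC ![P₁, P₂]) v' (negPt z) ym) :
    cls _ _ yp + cls _ _ ym = pval m₁ m₂ P₁ P₂ y := by
  obtain ⟨a, h1, h2, h3⟩ := exists_prim_scale (hom2 hP₁ hP₂) v' z hz
  set c' : ι → N' := fun i => (z (Sum.inl ⟨i, a i⟩))⁻¹ with hc'
  have hc'0 : ∀ i, c' i ≠ 0 := fun i => inv_ne_zero (h1 i)
  haveI := v'.finite_resField hN'
  let φ : v'.resField →ₐ[K] AlgebraicClosure K := IsAlgClosed.lift
  set u : Base n ⊕ Fin 2 → AlgebraicClosure K :=
    fun j => φ (v'.res (scale (wC n ![m₁, m₂]) c' z j)) with hu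
  have hsp : IsSp (wC n ![m₁, m₂]) (eqC ![P₁, P₂]) v' z u :=
    isSp_of_prim (eqC_hom (hom2 hP₁ hP₂)) v' z hz c' hc'0 h2
      (fun i => ⟨Sum.inl ⟨i, a i⟩, rfl, h3 i⟩) φ
  have hneg : negPt u = fun j => φ (v'.res (scale (wC n ![m₁, m₂]) c' (negPt z) j)) := by
    rw [scale_negPt]
    funext j
    rcases j with j | j
    · rfl
    · change -(φ (v'.res _)) = φ (v'.res (-_))
      rw [v'.res_neg (h2 _), map_neg]
  have hspm : IsSp (wC n ![m₁, m₂]) (eqC ![P₁, P₂]) v' (negPt z) (negPt u) := by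
    rw [hneg]
    refine isSp_of_prim (eqC_hom (hom2 hP₁ hP₂)) v' (negPt z) (isPoint_negPt hP₁ hP₂ hz) c' hc'0
      ?_ (fun i => ⟨Sum.inl ⟨i, a i⟩, rfl, ?_⟩) φ
    · intro j
      rw [scale_negPt]
      rcases j with j | j
      · exact h2 _
      · change v'.val (-_) ≤ 1
        rw [Valuation.map_neg]
        exact h2 _
    · rw [scale_negPt]
      exact h3 i
  rw [cls_isSp_eq hN' v' z yp u hyp hsp, cls_isSp_eq hN' v' (negPt z) ym (negPt u) hym hspm,
    ← pval_prodPt hP₁ hP₂ hsp.1]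
  -- the product point is a specialisation of `x` at `v`
  have hv1 : ∀ b : N, v.val b ≤ 1 ↔ v'.val (algebraMap N N' b) ≤ 1 := fun b => (hv b).symm
  have hv2 : ∀ b : N, v.val b < 1 ↔ v'.val (algebraMap N N' b) < 1 := by
    intro b
    by_cases hb : b = 0
    · subst hb; simp
    have hb' : algebraMap N N' b ≠ 0 := by simpa using hb
    have h4 := hv1 b⁻¹
    rw [map_inv₀, map_inv₀, map_inv₀, inv_le_one₀ (zero_lt_iff.2 (by simpa using hb)),
      inv_le_one₀ (zero_lt_iff.2 (by simpa using hb'))] at h4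
    rw [← not_le, ← not_le, h4]
  obtain ⟨ρ, hρ1, hρ2⟩ := Place.exists_residue_hom (k := K) (K := K) (L := N) (N := N') v' v hv1 hv2
  let ψ : v.resField →ₐ[K] AlgebraicClosure K :=
    { toRingHom := (φ : v'.resField →+* AlgebraicClosure K).comp ρ
      commutes' := by
        intro r
        change φ (ρ (algebraMap K v.resField r)) = _
        rw [hρ2]
        change φ (algebraMap K v'.resField r) = _
        rw [AlgHom.commutes] }
  have hψ : ∀ b : N, v.val b ≤ 1 → ψ (v.res b) = φ (v'.res (algebraMap N N' b)) := by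
    intro b hb
    change φ (ρ (v.res b)) = _
    rw [hρ1 b hb]
  set c : ι → N := fun i => (x (Sum.inl ⟨i, a i⟩))⁻¹ with hc
  have hcc' : ∀ i, algebraMap N N' (c i) = c' i := by
    intro i
    rw [hc, hc', map_inv₀, hxz]
    rfl
  have hsc : ∀ j, algebraMap N N' (scale (wC n fun _ : Unit => m₁ + m₂) c x j) =
      prodPt (scale (wC n ![m₁, m₂]) c' z) j := by
    intro j
    have h4 := congrFun (scale_map (algebraMap N N') (wC n fun _ : Unit => m₁ + m₂) c x) j
    have h5 : (fun i => algebraMap N N' (c i)) = c' := funext hcc'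
    have h6 : (fun j => algebraMap N N' (x j)) = prodPt z := funext hxz
    rw [h5, h6, scale_prodPt] at h4
    exact h4
  have hmem : ∀ j, v'.val (prodPt (scale (wC n ![m₁, m₂]) c' z) j) ≤ 1 := by
    intro j
    rcases j with j | j
    · exact h2 _
    · change v'.val (_ * _) ≤ 1
      rw [map_mul]
      exact mul_le_one' (h2 _) (h2 _)
  have hsp2 : IsSp (wC n fun _ : Unit => m₁ + m₂) (eqC fun _ : Unit => P₁ * P₂) v x
      (prodPt u) := by
    refine ⟨isPoint_prodPt hP₁ hP₂ hsp.1, ψ, c, ?_, ?_, ?_⟩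
    · intro i h0
      apply hc'0 i
      rw [← hcc', h0, map_zero]
    · intro j
      rw [Place.mem_ring, hv1, hsc]
      exact hmem j
    · intro j
      rw [hψ _ (by rw [hv1, hsc]; exact hmem j), hsc]
      rcases j with j | j
      · rfl
      · change φ (v'.res _) * φ (v'.res _) = φ (v'.res (_ * _))
        rw [v'.res_mul (h2 _) (h2 _), map_mul]
  exact (pval_isSp_eq hP₁ hP₂ hN v x y (prodPt u) hy hsp2)

/-- The relation attached to a rational function on a curve is respected. -/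
theorem pull0_rel {N : Type} [Field N] [Algebra K N] (hN : IsFunctionField K N)
    (x : Base n ⊕ Unit → N)
    (hx : IsPoint (wC n fun _ : Unit => m₁ + m₂) (eqC fun _ : Unit => P₁ * P₂) x) (f : N)
    (hf : f ≠ 0) (S : Finset (Place K N)) (hS : ∀ v, v ∈ S ↔ v.ord f ≠ 0)
    (y : Place K N → Base n ⊕ Unit → AlgebraicClosure K)
    (hy : ∀ v ∈ S, IsSp (wC n fun _ : Unit => m₁ + m₂) (eqC fun _ : Unit => P₁ * P₂) v x (y v)) :
    ∑ v ∈ S, ((v.ord f * (v.deg : ℤ) : ℤ) : ℚ) • pval m₁ m₂ P₁ P₂ (y v) = 0 := by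
  classical
  obtain ⟨a, ha⟩ := IsAlgClosed.exists_eq_mul_self
    (algebraMap N (AlgebraicClosure N) (MvPolynomial.aeval (fun b => x (Sum.inl b)) P₁))
  obtain ⟨b, hb⟩ := IsAlgClosed.exists_eq_mul_self
    (algebraMap N (AlgebraicClosure N) (MvPolynomial.aeval (fun b => x (Sum.inl b)) P₂))
  let N' : IntermediateField N (AlgebraicClosure N) := IntermediateField.adjoin N {a, b}
  haveI : FiniteDimensional N N' := by
    apply IntermediateField.finiteDimensional_adjoin
    intro c _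
    exact Algebra.IsIntegral.isIntegral c
  have hN' : IsFunctionField K N' := IsFunctionField.of_finite (K := N) hN
  have ha' : a ∈ N' := IntermediateField.subset_adjoin N _ (by simp)
  have hb' : b ∈ N' := IntermediateField.subset_adjoin N _ (by simp)
  set x' : Base n ⊕ Unit → N' := fun j => algebraMap N N' (x j) with hx'
  have hx'pt : IsPoint (wC n fun _ : Unit => m₁ + m₂) (eqC fun _ : Unit => P₁ * P₂) x' :=
    isPoint_map (IsScalarTower.toAlgHom K N N') x hx
  have hsq : ∀ (Q : MvPolynomial (Base n) K) (c : AlgebraicClosure N) (_ : c ∈ N'),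
      algebraMap N (AlgebraicClosure N) (MvPolynomial.aeval (fun b => x (Sum.inl b)) Q) = c * c →
      IsSquare (MvPolynomial.aeval (fun b => x' (Sum.inl b)) Q) := by
    intro Q c hc h
    refine ⟨⟨c, hc⟩, ?_⟩
    have h1 := (MvPolynomial.comp_aeval_apply (f := fun b => x (Sum.inl b))
      (IsScalarTower.toAlgHom K N N') Q)
    have h2 : MvPolynomial.aeval (fun b => x' (Sum.inl b)) Q =
        algebraMap N N' (MvPolynomial.aeval (fun b => x (Sum.inl b)) Q) := h1.symm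
    rw [h2]
    apply Subtype.ext
    exact h
  obtain ⟨z, hz, hzx⟩ := exists_lift hP₁ hP₂ x' hx'pt (hsq P₁ a ha' ha) (hsq P₂ b hb' hb)
  have hzn := isPoint_negPt hP₁ hP₂ hz
  choose yp hyp using fun v : Place K N' => exists_isSp (hom2 hP₁ hP₂) hN' v z hz
  choose ym hym using fun v : Place K N' => exists_isSp (hom2 hP₁ hP₂) hN' v (negPt z) hzn
  choose y0 hy0 using fun v : Place K N => exists_isSp (hom1 hP₁ hP₂) hN v x hx
  obtain ⟨S', hS', -⟩ := hN'.product_formula (algebraMap N N' f)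
  have hf' : algebraMap N N' f ≠ 0 := by simpa using hf
  have key := transfer_sum hN hN' f hf S hS S' hS'
    (fun v => pval m₁ m₂ P₁ P₂ (y0 v)) (fun v => cls _ _ (yp v) + cls _ _ (ym v))
    (fun v' v hv => pval_sp hP₁ hP₂ hN hN' v' v hv x z hz
      (fun j => by rw [hzx]) (y0 v) (hy0 v) (yp v') (ym v') (hyp v') (hym v'))
  have e1 := cls_rel hN' z hz (algebraMap N N' f) hf' S' hS' yp (fun v _ => hyp v)
  have e2 := cls_rel hN' (negPt z) hzn (algebraMap N N' f) hf' S' hS' ym (fun v _ => hym v)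
  simp only [smul_add, Finset.sum_add_distrib] at key
  rw [e1, e2, add_zero] at key
  have hfin : (Module.finrank N N' : ℚ) ≠ 0 := by
    have : 0 < Module.finrank N N' := Module.finrank_pos
    exact_mod_cast this.ne'
  have e3 := (smul_eq_zero.1 key.symm).resolve_left hfin
  rw [← e3]
  refine Finset.sum_congr rfl fun v hv => ?_
  rw [pval_isSp_eq hP₁ hP₂ hN v x (y0 v) (y v) (hy0 v) (hy v hv)]

theorem ratEquiv_le_ker_pull0 :
    ratEquiv (wC n fun _ : Unit => m₁ + m₂) (eqC fun _ : Unit => P₁ * P₂) ≤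
      LinearMap.ker (pull0 m₁ m₂ P₁ P₂) := by
  rw [ratEquiv, Submodule.span_le]
  rintro r ((⟨c, x, hc, hx, rfl⟩ | ⟨τ, x, hx, rfl⟩) |
    ⟨N, _, _, x, f, S, ρ, y, hN, hx, hf, hS, hy, rfl⟩)
  · rw [SetLike.mem_coe, LinearMap.mem_ker, map_sub, pull0_single, pull0_single, one_smul,
      one_smul, pval_scale hP₁ hP₂ c hc x hx, sub_self]
  · rw [SetLike.mem_coe, LinearMap.mem_ker, map_sub, pull0_single, pull0_single, one_smul,
      one_smul, pval_conj hP₁ hP₂ τ x hx, sub_self]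
  · rw [SetLike.mem_coe, LinearMap.mem_ker, map_sum]
    simp only [pull0_single]
    have h1 := pull0_rel hP₁ hP₂ hN x hx f hf S hS y (fun v hv => by
      obtain ⟨h1, c, h, hc, h2⟩ := hy v hv
      refine ⟨h1, v.redRes (ρ v), c, hc, h, fun j => ?_⟩
      rw [h2 j, v.redRes_res (ρ v) (h j)])
    rw [← h1]
    refine Finset.sum_congr rfl fun v _ => ?_
    rw [v.finrank_red]

end val

end pull

/-- Pull-back of zero-cycles under the double cover
`{y₁² = P₁, y₂² = P₂} → {y² = P₁P₂}`, `(x, y₁, y₂) ↦ (x, y₁y₂)`. -/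
theorem exists_pullback {K ι : Type} [Field K] [Fintype ι] [DecidableEq ι]
    (_hK : ringChar K ≠ 2) {n : ι → ℕ} (m₁ m₂ : ι → ℕ) (P₁ P₂ : MvPolynomial (Base n) K)
    (hP₁ : P₁.IsWeightedHomogeneous (wB n) (2 • m₁))
    (hP₂ : P₂.IsWeightedHomogeneous (wB n) (2 • m₂)) :
    ∃ Φ : Quo (wC n fun _ : Unit => m₁ + m₂) (eqC fun _ : Unit => P₁ * P₂) →ₗ[ℚ]
        Quo (wC n ![m₁, m₂]) (eqC ![P₁, P₂]),
      ∀ z : Base n ⊕ Fin 2 → AlgebraicClosure K,
        IsPoint (wC n ![m₁, m₂]) (eqC ![P₁, P₂]) z →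
        Φ (cls _ _ (Sum.elim (fun b => z (Sum.inl b))
            (fun _ => z (Sum.inr 0) * z (Sum.inr 1)))) =
          cls _ _ z + cls _ _ (Sum.elim (fun b => z (Sum.inl b)) (fun j => - z (Sum.inr j))) := by
  refine ⟨(ratEquiv _ _).liftQ (pull0 m₁ m₂ P₁ P₂) (ratEquiv_le_ker_pull0 hP₁ hP₂), ?_⟩
  intro z hz
  have h1 := pval_prodPt hP₁ hP₂ hz
  change pull0 m₁ m₂ P₁ P₂ (Finsupp.single (prodPt z) 1) = _
  rw [pull0_single, one_smul, h1]
  rfl

end Pool.Agent.Helper69.BBTransfer
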