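import Pool.Agent.Helper96.Defs

/-!
# Simulation along complete paths, word structures (module G2 of MP_9e35a6_lc)
-/

set_option autoImplicit false
set_option linter.all false

namespace Pool.Agent.Helper69

open Pool.Agent.Helper96

/-- `X` is closed under a list of Horn rules -/
def ClosedUnder {A : Type} (R : List Rule) (X : ℕ → A → A → Prop) : Prop :=
  ∀ ρ ∈ R, ∀ σ : ℕ → A, (∀ a ∈ ρ.1, X a.1 (σ a.2.1) (σ a.2.2)) →
    X ρ.2.1 (σ ρ.2.2.1) (σ ρ.2.2.2)

/-! ### Grid automata -/

theorem cell_zero (G : GA) (w : ℕ → ℕ) (i : ℕ) : G.cell w 0 i = w i := rfl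

theorem cell_succ_zero (G : GA) (w : ℕ → ℕ) (t : ℕ) :
    G.cell w (t + 1) 0 = G.d0 (G.cell w t 0) (G.cell w t 1) := by
  unfold GA.cell
  rw [Function.iterate_succ_apply']
  rfl

theorem cell_succ_succ (G : GA) (w : ℕ → ℕ) (t i : ℕ) :
    G.cell w (t + 1) (i + 1) =
      G.d (G.cell w t i) (G.cell w t (i + 1)) (G.cell w t (i + 2)) (G.cell w (t + 1) i) := by
  unfold GA.cell
  rw [Function.iterate_succ_apply']
  rfl

theorem cell_lt {G : GA} (hG : G.Closed) {w : ℕ → ℕ} {N : ℕ} (hw : ∀ i < N, w i < G.m) :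
    ∀ t i, t + i < N → G.cell w t i < G.m := by
  intro t
  induction t with
  | zero => intro i hi; rw [cell_zero]; exact hw i (by omega)
  | succ t iht =>
    intro i
    induction i with
    | zero =>
      intro h
      rw [cell_succ_zero]
      exact hG.1 _ (iht 0 (by omega)) _ (iht 1 (by omega))
    | succ i ihi =>
      intro h
      rw [cell_succ_succ]
      exact hG.2 _ (iht i (by omega)) _ (iht (i + 1) (by omega)) _ (iht (i + 2) (by omega)) _
        (ihi (by omega))

/-! ### Propagation of cells -/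

section

variable {A : Type}

theorem ga_path {G : GA} (hG : G.Closed) {e : ℕ → ℕ} {X : ℕ → A → A → Prop}
    (hX : ClosedUnder (TD.gaRules G e) X) {p : ℕ → A} {N : ℕ}
    (hF : X eF (p 0) (p 0)) (hS : ∀ i, i + 1 < N → X eS (p i) (p (i + 1)))
    {w : ℕ → ℕ} (hw : ∀ i < N, w i < G.m) (h0 : ∀ i < N, X (e (w i)) (p 0) (p i)) :
    ∀ t i, t + i < N → X (e (G.cell w t i)) (p t) (p i) := by
  have hlt := cell_lt hG hw
  intro t
  induction t with
  | zero => intro i hi; rw [cell_zero]; exact h0 i (by omega)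
  | succ t iht =>
    intro i
    induction i with
    | zero =>
      intro h
      rw [cell_succ_zero]
      have hmem : (([(e (G.cell w t 0), 0, 1), (e (G.cell w t 1), 0, 2), (eF, 1, 1), (eS, 1, 2),
          (eS, 0, 3)], (e (G.d0 (G.cell w t 0) (G.cell w t 1)), 3, 1)) : Rule) ∈
          TD.gaRules G e := by
        unfold TD.gaRules
        apply List.mem_append_left
        rw [List.mem_flatMap]
        refine ⟨_, List.mem_range.mpr (hlt t 0 (by omega)), ?_⟩
        rw [List.mem_map]
        exact ⟨_, List.mem_range.mpr (hlt t 1 (by omega)), rfl⟩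
      have := hX _ hmem (fun v => match v with
        | 0 => p t
        | 1 => p 0
        | 2 => p 1
        | _ => p (t + 1)) (by
          intro a ha
          simp only [List.mem_cons, List.not_mem_nil, or_false] at ha
          rcases ha with rfl | rfl | rfl | rfl | rfl
          · exact iht 0 (by omega)
          · exact iht 1 (by omega)
          · exact hF
          · exact hS 0 (by omega)
          · exact hS t (by omega))
      exact this
    | succ i ihi =>
      intro h
      rw [cell_succ_succ]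
      have hmem : (([(e (G.cell w t i), 0, 1), (e (G.cell w t (i + 1)), 0, 2),
          (e (G.cell w t (i + 2)), 0, 3), (e (G.cell w (t + 1) i), 4, 1), (eS, 1, 2), (eS, 2, 3),
          (eS, 0, 4)], (e (G.d (G.cell w t i) (G.cell w t (i + 1)) (G.cell w t (i + 2))
            (G.cell w (t + 1) i)), 4, 2)) : Rule) ∈ TD.gaRules G e := by
        unfold TD.gaRules
        apply List.mem_append_right
        rw [List.mem_flatMap]
        refine ⟨_, List.mem_range.mpr (hlt t i (by omega)), ?_⟩
        rw [List.mem_flatMap]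
        refine ⟨_, List.mem_range.mpr (hlt t (i + 1) (by omega)), ?_⟩
        rw [List.mem_flatMap]
        refine ⟨_, List.mem_range.mpr (hlt t (i + 2) (by omega)), ?_⟩
        rw [List.mem_map]
        exact ⟨_, List.mem_range.mpr (hlt (t + 1) i (by omega)), rfl⟩
      have := hX _ hmem (fun v => match v with
        | 0 => p t
        | 1 => p i
        | 2 => p (i + 1)
        | 3 => p (i + 2)
        | _ => p (t + 1)) (by
          intro a ha
          simp only [List.mem_cons, List.not_mem_nil, or_false] at ha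
          rcases ha with rfl | rfl | rfl | rfl | rfl | rfl | rfl
          · exact iht i (by omega)
          · exact iht (i + 1) (by omega)
          · exact iht (i + 2) (by omega)
          · exact ihi (by omega)
          · exact hS i (by omega)
          · exact hS (i + 1) (by omega)
          · exact hS t (by omega))
      exact this

theorem ClosedUnder.mono {R R' : List Rule} {X : ℕ → A → A → Prop} (h : ClosedUnder R X)
    (hR : ∀ ρ ∈ R', ρ ∈ R) : ClosedUnder R' X := fun ρ hρ => h ρ (hR ρ hρ)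

variable {D : TD}

theorem base_sub : ∀ ρ ∈ TD.baseRules, ρ ∈ D.coreRules := by
  intro ρ h
  unfold TD.coreRules
  simp only [List.mem_append]
  exact Or.inl (Or.inl (Or.inl h))

theorem data_sub : ∀ ρ ∈ D.dataRules, ρ ∈ D.coreRules := by
  intro ρ h
  unfold TD.coreRules
  simp only [List.mem_append]
  exact Or.inl (Or.inl (Or.inr h))

theorem gaZ_sub : ∀ ρ ∈ TD.gaRules D.GZ D.eZ, ρ ∈ D.coreRules := by
  intro ρ h
  unfold TD.coreRules
  simp only [List.mem_append]
  exact Or.inl (Or.inr h)

theorem gaV_sub : ∀ ρ ∈ TD.gaRules D.GV D.eV, ρ ∈ D.coreRules := by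
  intro ρ h
  unfold TD.coreRules
  simp only [List.mem_append]
  exact Or.inr h

theorem core_sub : ∀ ρ ∈ D.coreRules, ρ ∈ D.rules := by
  intro ρ h
  unfold TD.rules
  exact List.mem_append_left _ h

/-- apply a base rule -/
theorem use_base {X : ℕ → A → A → Prop} (hX : ClosedUnder D.coreRules X) (ρ : Rule)
    (hρ : ρ ∈ TD.baseRules) (σ : ℕ → A) (h : ∀ a ∈ ρ.1, X a.1 (σ a.2.1) (σ a.2.2)) :
    X ρ.2.1 (σ ρ.2.2.1) (σ ρ.2.2.2) := hX ρ (base_sub ρ hρ) σ h

/-- assignments -/
def asg (x y z : A) : ℕ → A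
  | 0 => x
  | 1 => y
  | _ => z

theorem path_I {X : ℕ → A → A → Prop} (hX : ClosedUnder D.coreRules X) {p : ℕ → A} {N : ℕ}
    (hF : X eF (p 0) (p 0)) (hS : ∀ i, i + 1 < N → X eS (p i) (p (i + 1))) :
    ∀ i < N, X eI (p 0) (p i) := by
  intro i
  induction i with
  | zero =>
    intro _
    exact use_base hX ([(eF, 0, 0)], (eI, 0, 0)) (by decide) (asg (p 0) (p 0) (p 0)) (by
      intro a ha
      simp only [List.mem_cons, List.not_mem_nil, or_false] at ha
      subst ha
      exact hF)
  | succ i ih =>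
    intro h
    exact use_base hX ([(eI, 0, 1), (eS, 1, 2)], (eI, 0, 2)) (by decide)
      (asg (p 0) (p i) (p (i + 1))) (by
      intro a ha
      simp only [List.mem_cons, List.not_mem_nil, or_false] at ha
      rcases ha with rfl | rfl
      · exact ih (by omega)
      · exact hS i h)

theorem path_Z (hD : D.WF) {X : ℕ → A → A → Prop} (hX : ClosedUnder D.coreRules X) {p : ℕ → A}
    {N : ℕ} (hF : X eF (p 0) (p 0)) (hS : ∀ i, i + 1 < N → X eS (p i) (p (i + 1))) :
    (∀ i < N, X eI (p 0) (p i)) ∧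
      ∀ t i, t + i < N → X (D.eZ (D.GZ.cell (fun _ => D.z0) t i)) (p t) (p i) := by
  have hI := path_I hX hF hS
  refine ⟨hI, ga_path hD.closedZ (hX.mono gaZ_sub) hF hS (fun _ _ => hD.z0_lt) ?_⟩
  intro i hi
  have hmem : (([(eI, 0, 1)], (D.eZ D.z0, 0, 1)) : Rule) ∈ D.dataRules := by
    unfold TD.dataRules
    simp only [List.mem_append, List.mem_singleton]
    exact Or.inl (Or.inl (Or.inl trivial))
  exact hX _ (data_sub _ hmem) (asg (p 0) (p i) (p i)) (by
      intro a ha
      simp only [List.mem_cons, List.not_mem_nil, or_false] at ha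
      subst ha
      exact hI i hi)

theorem path_V (hD : D.WF) {X : ℕ → A → A → Prop} (hX : ClosedUnder D.coreRules X) {p : ℕ → A}
    {N : ℕ} (hF : X eF (p 0) (p 0)) (hS : ∀ i, i + 1 < N → X eS (p i) (p (i + 1)))
    {a c : ℕ → ℕ} (ha : ∀ i < N, a i < D.nl) (hc : ∀ i < N, c i < 2)
    (hLet : ∀ i < N, X (eLet (a i)) (p i) (p i)) (hY : ∀ i < N, X (eY (c i)) (p i) (p i)) :
    ∀ t i, t + i < N → X (D.eV (D.GV.cell (fun i => D.iniV (a i) (c i)) t i)) (p t) (p i) := by
  have hI := path_I hX hF hS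
  refine ga_path hD.closedV (hX.mono gaV_sub) hF hS
    (fun i hi => hD.iniV_lt _ (ha i hi) _ (hc i hi)) ?_
  intro i hi
  have hmem : (([(eI, 0, 1), (eY (c i), 1, 1), (eLet (a i), 1, 1)],
      (D.eV (D.iniV (a i) (c i)), 0, 1)) : Rule) ∈ D.dataRules := by
    unfold TD.dataRules
    simp only [List.mem_append]
    refine Or.inl (Or.inl (Or.inr ?_))
    rw [List.mem_flatMap]
    refine ⟨_, List.mem_range.mpr (ha i hi), ?_⟩
    rw [List.mem_map]
    exact ⟨_, List.mem_range.mpr (hc i hi), rfl⟩
  exact hX _ (data_sub _ hmem) (asg (p 0) (p i) (p i)) (by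
      intro b hb
      simp only [List.mem_cons, List.not_mem_nil, or_false] at hb
      rcases hb with rfl | rfl | rfl
      · exact hI i hi
      · exact hY i hi
      · exact hLet i hi)

theorem path_status (hD : D.WF) {X : ℕ → A → A → Prop} (hX : ClosedUnder D.coreRules X)
    {p : ℕ → A} {N : ℕ} (hN : 1 ≤ N)
    (hF : X eF (p 0) (p 0)) (hS : ∀ i, i + 1 < N → X eS (p i) (p (i + 1)))
    (hE : X eE (p (N - 1)) (p (N - 1))) :
    X (bif D.onZ (D.GZ.cell (fun _ => D.z0) (N - 1) 0) then eOn else eOff) (p 0) (p 0) := by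
  have hZ := (path_Z hD hX hF hS).2 (N - 1) 0 (by omega)
  have hlt : D.GZ.cell (fun _ => D.z0) (N - 1) 0 < D.GZ.m :=
    cell_lt (N := N) hD.closedZ (fun _ _ => hD.z0_lt) (N - 1) 0 (by omega)
  set z := D.GZ.cell (fun _ => D.z0) (N - 1) 0 with hz
  have hmem : (([(D.eZ z, 0, 1), (eE, 0, 0), (eF, 1, 1)],
      (bif D.onZ z then eOn else eOff, 1, 1)) : Rule) ∈ D.dataRules := by
    unfold TD.dataRules
    simp only [List.mem_append]
    refine Or.inl (Or.inr ?_)
    rw [List.mem_map]
    exact ⟨z, List.mem_range.mpr hlt, rfl⟩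
  exact hX _ (data_sub _ hmem) (asg (p (N - 1)) (p 0) (p 0)) (by
      intro b hb
      simp only [List.mem_cons, List.not_mem_nil, or_false] at hb
      rcases hb with rfl | rfl | rfl
      · exact hZ
      · exact hE
      · exact hF)

theorem path_reject (hD : D.WF) {X : ℕ → A → A → Prop} (hX : ClosedUnder D.coreRules X)
    {p : ℕ → A} {N : ℕ} (hN : 1 ≤ N)
    (hF : X eF (p 0) (p 0)) (hS : ∀ i, i + 1 < N → X eS (p i) (p (i + 1)))
    {a c : ℕ → ℕ} (ha : ∀ i < N, a i < D.nl) (hc : ∀ i < N, c i < 2)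
    (hLet : ∀ i < N, X (eLet (a i)) (p i) (p i)) (hY : ∀ i < N, X (eY (c i)) (p i) (p i))
    (hE : X eE (p (N - 1)) (p (N - 1)))
    (hacc : D.acc (D.GV.cell (fun i => D.iniV (a i) (c i)) (N - 1) 0) = false) :
    ∃ u, X eBOT u u := by
  have hV := path_V hD hX hF hS ha hc hLet hY (N - 1) 0 (by omega)
  have hlt : D.GV.cell (fun i => D.iniV (a i) (c i)) (N - 1) 0 < D.GV.m :=
    cell_lt (N := N) hD.closedV (fun i hi => hD.iniV_lt _ (ha i hi) _ (hc i hi)) (N - 1) 0
      (by omega)
  set z := D.GV.cell (fun i => D.iniV (a i) (c i)) (N - 1) 0 with hz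
  have hmem : (([(D.eV z, 0, 1), (eE, 0, 0), (eF, 1, 1)], (eBOT, 0, 0)) : Rule) ∈
      D.dataRules := by
    unfold TD.dataRules
    simp only [List.mem_append]
    refine Or.inr ?_
    rw [List.mem_map]
    refine ⟨z, List.mem_filter.mpr ⟨List.mem_range.mpr hlt, ?_⟩, rfl⟩
    rw [hacc]; rfl
  exact ⟨p (N - 1), hX _ (data_sub _ hmem) (asg (p (N - 1)) (p 0) (p 0)) (by
      intro b hb
      simp only [List.mem_cons, List.not_mem_nil, or_false] at hb
      rcases hb with rfl | rfl | rfl
      · exact hV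
      · exact hE
      · exact hF)⟩

end

/-! ### The status of a complete `On` path -/

theorem facts_lt {k n : ℕ} {B : BinStr k (Fin n)} {f : Fact} (hf : f ∈ TD.facts B) :
    f.2.1 < n ∧ f.2.2 < n := by
  obtain ⟨r, x, y, _, rfl⟩ := hf
  exact ⟨x.2, y.2⟩

theorem der_lt {R : List Rule} {n : ℕ} {S : Set Fact} (hS : ∀ f ∈ S, f.2.1 < n ∧ f.2.2 < n)
    {f : Fact} (hf : Der R n S f) : f.2.1 < n ∧ f.2.2 < n := by
  cases hf with
  | base h => exact hS f h
  | rule hr σ hσ hb => exact ⟨hσ _, hσ _⟩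

theorem closed_der {R : List Rule} {n : ℕ} {S : Set Fact} :
    ClosedUnder R (fun r (x y : Fin n) => Der R n S (r, x.1, y.1)) := by
  intro ρ hρ σ h
  have hn : ∀ v, (σ v).1 < n := fun v => (σ v).2
  have := Der.rule (B := S) hρ (fun v => (σ v).1) hn (fun a ha => h a ha)
  exact this

theorem closed_der_core {D : TD} {n : ℕ} {S : Set Fact} :
    ClosedUnder D.coreRules (fun r (x y : Fin n) => Der D.rules n S (r, x.1, y.1)) :=
  closed_der.mono core_sub

theorem status_of_onPath {D : TD} (hD : D.WF) {n : ℕ} (B : BinStr D.K (Fin n))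
    (hbot : ∀ x y, ¬ Der D.rules n (TD.facts B) (eBOT, x, y)) {p : List ℕ}
    (hp : TD.IsOnPath (fun f => Der D.rules n (TD.facts B) f) p) :
    D.onZ (D.GZ.cell (fun _ => D.z0) (p.length - 1) 0) = true := by
  have hlen : 0 < p.length := List.length_pos_iff.mpr hp.ne
  -- all elements of p are < n
  have hchain := List.isChain_iff_getElem.mp hp.chain
  have hhead : p.head? = some (p[0]) := by
    rw [List.head?_eq_getElem?, List.getElem?_eq_getElem hlen]
  have hlast : p.getLast? = some (p[p.length - 1]) := by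
    rw [List.getLast?_eq_getElem?, List.getElem?_eq_getElem (by omega)]
  have hF := hp.first _ (by rw [hhead]; rfl)
  have hOn := hp.on _ (by rw [hhead]; rfl)
  have hE := hp.last _ (by rw [hlast]; rfl)
  have hlt : ∀ i (hi : i < p.length), p[i] < n := by
    intro i hi
    rcases Nat.eq_zero_or_pos i with h | h
    · subst h
      exact (der_lt (fun f hf => facts_lt hf) hF).1
    · have := hchain (i - 1) (by omega)
      have e : i - 1 + 1 = i := by omega
      simp only [e] at this
      exact (der_lt (fun f hf => facts_lt hf) this).2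
  by_contra hne
  have hne' : D.onZ (D.GZ.cell (fun _ => D.z0) (p.length - 1) 0) = false := by
    simpa using hne
  have hn : 0 < n := lt_of_le_of_lt (Nat.zero_le _) (hlt 0 hlen)
  let q : ℕ → Fin n := fun i => if h : i < p.length then ⟨p[i], hlt i h⟩ else ⟨0, hn⟩
  have hq : ∀ i (hi : i < p.length), (q i).1 = p[i] := by
    intro i hi
    simp only [q, dif_pos hi]
  have hst := path_status hD (closed_der_core (D := D) (n := n) (S := TD.facts B)) (p := q)
    (N := p.length) hlen (by simp only [hq 0 hlen]; exact hF)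
    (by
      intro i hi
      simp only [hq i (by omega), hq (i + 1) hi]
      exact hchain i hi)
    (by simp only [hq (p.length - 1) (by omega)]; exact hE)
  rw [hne'] at hst
  simp only [cond_false] at hst
  have hb := use_base (closed_der_core (D := D) (n := n) (S := TD.facts B))
    ([(eOn, 0, 0), (eOff, 0, 0)], (eBOT, 0, 0)) (by decide) (asg (q 0) (q 0) (q 0)) (by
      intro b hb
      simp only [List.mem_cons, List.not_mem_nil, or_false] at hb
      rcases hb with rfl | rfl
      · show Der D.rules n (TD.facts B) (eOn, (q 0).1, (q 0).1)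
        rw [hq 0 hlen]; exact hOn
      · exact hst)
  exact hbot _ _ hb

/-! ### Word structures -/

/-- the word structure of length `N` with letters `a 0, …, a (N-1)` -/
def wordStr (D : TD) (N : ℕ) (a : ℕ → ℕ) : BinStr D.K (Fin N) where
  rel r x y :=
    (r.1 + 2 = eS ∧ y.1 = x.1 + 1) ∨ (r.1 + 2 = eF ∧ x.1 = 0 ∧ y.1 = 0) ∨
    (r.1 + 2 = eE ∧ x.1 = N - 1 ∧ y.1 = N - 1) ∨ (r.1 + 2 = eLet (a x.1) ∧ y.1 = x.1)

/-- the relations of the standard model over a word with certificate `c` -/
def wX (D : TD) (N : ℕ) (a c : ℕ → ℕ) (e x y : ℕ) : Prop :=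
  if e = 2 then y = x + 1
  else if e = 3 then x = 0 ∧ y = 0
  else if e = 4 then x = N - 1 ∧ y = N - 1
  else if e = 5 then x = 0
  else if e = 8 then x = y
  else if e < 10 then False
  else if e < 12 then x = y ∧ c x = e - 10
  else if e < 12 + D.nl then x = y ∧ a x = e - 12
  else if e < 12 + D.nl + D.GV.m then
    x + y < N ∧ D.GV.cell (fun i => D.iniV (a i) (c i)) x y = e - (12 + D.nl)
  else x + y < N ∧
    D.GZ.cell (fun _ => D.z0) x y = e - (12 + D.nl + D.GV.m)

section

variable {D : TD} {N : ℕ} {a c : ℕ → ℕ}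

theorem wX_S {x y : ℕ} : wX D N a c eS x y ↔ y = x + 1 := by
  unfold wX; simp [eS]

theorem wX_F {x y : ℕ} : wX D N a c eF x y ↔ x = 0 ∧ y = 0 := by
  unfold wX; simp [eF]

theorem wX_E {x y : ℕ} : wX D N a c eE x y ↔ x = N - 1 ∧ y = N - 1 := by
  unfold wX; simp [eE]

theorem wX_I {x y : ℕ} : wX D N a c eI x y ↔ x = 0 := by
  unfold wX; simp [eI]

theorem wX_SL {x y : ℕ} : ¬ wX D N a c eSL x y := by
  unfold wX; simp [eSL]

theorem wX_SR {x y : ℕ} : ¬ wX D N a c eSR x y := by
  unfold wX; simp [eSR]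

theorem wX_On {x y : ℕ} : wX D N a c eOn x y ↔ x = y := by
  unfold wX; simp [eOn]

theorem wX_Off {x y : ℕ} : ¬ wX D N a c eOff x y := by
  unfold wX; simp [eOff]

theorem wX_Y {b x y : ℕ} (hb : b < 2) : wX D N a c (eY b) x y ↔ x = y ∧ c x = b := by
  unfold wX eY
  rw [if_neg (by omega), if_neg (by omega), if_neg (by omega), if_neg (by omega),
    if_neg (by omega), if_neg (by omega), if_pos (by omega)]
  have : 10 + b - 10 = b := by omega
  rw [this]

theorem wX_Let {b x y : ℕ} (hb : b < D.nl) : wX D N a c (eLet b) x y ↔ x = y ∧ a x = b := by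
  unfold wX eLet
  rw [if_neg (by omega), if_neg (by omega), if_neg (by omega), if_neg (by omega),
    if_neg (by omega), if_neg (by omega), if_neg (by omega), if_pos (by omega)]
  have : 12 + b - 12 = b := by omega
  rw [this]

theorem wX_V {z x y : ℕ} (hz : z < D.GV.m) : wX D N a c (D.eV z) x y ↔
    x + y < N ∧ D.GV.cell (fun i => D.iniV (a i) (c i)) x y = z := by
  unfold wX TD.eV
  rw [if_neg (by omega), if_neg (by omega), if_neg (by omega), if_neg (by omega),
    if_neg (by omega), if_neg (by omega), if_neg (by omega), if_neg (by omega),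
    if_pos (by omega)]
  have : 12 + D.nl + z - (12 + D.nl) = z := by omega
  rw [this]

theorem wX_Z {z x y : ℕ} : wX D N a c (D.eZ z) x y ↔
    x + y < N ∧ D.GZ.cell (fun _ => D.z0) x y = z := by
  unfold wX TD.eZ
  rw [if_neg (by omega), if_neg (by omega), if_neg (by omega), if_neg (by omega),
    if_neg (by omega), if_neg (by omega), if_neg (by omega), if_neg (by omega),
    if_neg (by omega)]
  have : 12 + D.nl + D.GV.m + z - (12 + D.nl + D.GV.m) = z := by omega
  rw [this]

/-- the standard model over a word -/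
def wordModel (D : TD) (N : ℕ) (a c : ℕ → ℕ) : BinStr D.K (Fin N) where
  rel r x y := wX D N a c (r.1 + 2) x.1 y.1

theorem holds_wordModel {e : ℕ} (h2 : 2 ≤ e) (hM : e < D.M) {x y : Fin N} :
    TD.holds (wordModel D N a c) e x y ↔ wX D N a c e x.1 y.1 := by
  obtain ⟨r, rfl⟩ : ∃ r, e = r + 2 := ⟨e - 2, by omega⟩
  have hK : r < D.K := by unfold TD.K; omega
  unfold TD.holds
  constructor
  · rintro ⟨h, h'⟩; exact h'
  · intro h; exact ⟨hK, h⟩

/-- the set of facts `X` in which the rules are to be verified -/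
def hX (D : TD) (N : ℕ) (a c : ℕ → ℕ) (e : ℕ) (x y : Fin N) : Prop :=
  if e = 0 then x = y else if e = 1 then False else wX D N a c e x.1 y.1

theorem holds_iff_hX {e : ℕ} (hM : e < D.M) {x y : Fin N} :
    TD.holds (wordModel D N a c) e x y ↔ hX D N a c e x y := by
  unfold hX
  rcases Nat.lt_or_ge e 2 with h | h
  · interval_cases e
    · simp [TD.holds]
    · simp [TD.holds]
  · rw [if_neg (by omega), if_neg (by omega)]
    exact holds_wordModel h hM

theorem M_ge : 12 ≤ D.M := by unfold TD.M; omega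

theorem hm_S {x y : Fin N} : TD.holds (wordModel D N a c) eS x y ↔ y.1 = x.1 + 1 :=
  (holds_wordModel (by decide) (lt_of_lt_of_le (by decide) M_ge)).trans wX_S

theorem hm_F {x y : Fin N} : TD.holds (wordModel D N a c) eF x y ↔ x.1 = 0 ∧ y.1 = 0 :=
  (holds_wordModel (by decide) (lt_of_lt_of_le (by decide) M_ge)).trans wX_F

theorem hm_E {x y : Fin N} : TD.holds (wordModel D N a c) eE x y ↔ x.1 = N - 1 ∧ y.1 = N - 1 :=
  (holds_wordModel (by decide) (lt_of_lt_of_le (by decide) M_ge)).trans wX_E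

theorem hm_I {x y : Fin N} : TD.holds (wordModel D N a c) eI x y ↔ x.1 = 0 :=
  (holds_wordModel (by decide) (lt_of_lt_of_le (by decide) M_ge)).trans wX_I

theorem hm_SL {x y : Fin N} : ¬ TD.holds (wordModel D N a c) eSL x y := fun h =>
  wX_SL ((holds_wordModel (by decide) (lt_of_lt_of_le (by decide) M_ge)).mp h)

theorem hm_SR {x y : Fin N} : ¬ TD.holds (wordModel D N a c) eSR x y := fun h =>
  wX_SR ((holds_wordModel (by decide) (lt_of_lt_of_le (by decide) M_ge)).mp h)

theorem hm_On {x y : Fin N} : TD.holds (wordModel D N a c) eOn x y ↔ x.1 = y.1 :=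
  (holds_wordModel (by decide) (lt_of_lt_of_le (by decide) M_ge)).trans wX_On

theorem hm_Off {x y : Fin N} : ¬ TD.holds (wordModel D N a c) eOff x y := fun h =>
  wX_Off ((holds_wordModel (by decide) (lt_of_lt_of_le (by decide) M_ge)).mp h)

theorem hm_Y {b : ℕ} (hb : b < 2) {x y : Fin N} :
    TD.holds (wordModel D N a c) (eY b) x y ↔ x.1 = y.1 ∧ c x.1 = b :=
  (holds_wordModel (by unfold eY; omega) (lt_of_lt_of_le (by unfold eY; omega) M_ge)).trans
    (wX_Y hb)

theorem hm_Let {b : ℕ} (hb : b < D.nl) {x y : Fin N} :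
    TD.holds (wordModel D N a c) (eLet b) x y ↔ x.1 = y.1 ∧ a x.1 = b :=
  (holds_wordModel (by unfold eLet; omega) (by unfold eLet TD.M; omega)).trans (wX_Let hb)

theorem hm_Z {z : ℕ} (hz : z < D.GZ.m) {x y : Fin N} :
    TD.holds (wordModel D N a c) (D.eZ z) x y ↔
      x.1 + y.1 < N ∧ D.GZ.cell (fun _ => D.z0) x.1 y.1 = z :=
  (holds_wordModel (by unfold TD.eZ; omega) (by unfold TD.eZ TD.M; omega)).trans wX_Z

theorem hm_V {z : ℕ} (hz : z < D.GV.m) {x y : Fin N} :
    TD.holds (wordModel D N a c) (D.eV z) x y ↔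
      x.1 + y.1 < N ∧ D.GV.cell (fun i => D.iniV (a i) (c i)) x.1 y.1 = z :=
  (holds_wordModel (by unfold TD.eV; omega) (by unfold TD.eV TD.M; omega)).trans (wX_V hz)

theorem wordModel_base : ∀ ρ ∈ TD.baseRules, TD.holdsRule (wordModel D N a c) ρ := by
  intro ρ hρ σ h
  unfold TD.baseRules at hρ
  simp only [List.mem_cons, List.not_mem_nil, or_false] at hρ
  rcases hρ with rfl | rfl | rfl | rfl | rfl | rfl | rfl | rfl | rfl | rfl | rfl | rfl | rfl | rfl
  · have h1 := hm_S.mp (h (eS, 0, 1) (by simp))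
    have h2 := hm_S.mp (h (eS, 0, 2) (by simp))
    exact Fin.ext (h1.trans h2.symm)
  · have h1 := hm_S.mp (h (eS, 0, 2) (by simp))
    have h2 := hm_S.mp (h (eS, 1, 2) (by simp))
    exact Fin.ext (by simp only at h1 h2 ⊢; omega)
  · have h1 := hm_S.mp (h (eS, 0, 1) (by simp))
    have h2 := hm_F.mp (h (eF, 1, 1) (by simp))
    simp only at h1 h2
    omega
  · have h1 := hm_S.mp (h (eS, 0, 1) (by simp))
    have h2 := hm_E.mp (h (eE, 0, 0) (by simp))
    simp only at h1 h2
    have := (σ 1).2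
    omega
  · exact absurd (h (eSL, 1, 1) (by simp)) hm_SL
  · exact absurd (h (eSL, 0, 0) (by simp)) hm_SL
  · exact absurd (h (eSR, 0, 0) (by simp)) hm_SR
  · exact absurd (h (eSR, 0, 0) (by simp)) hm_SR
  · have h1 := hm_F.mp (h (eF, 0, 0) (by simp))
    exact hm_I.mpr h1.1
  · have h1 := hm_I.mp (h (eI, 0, 1) (by simp))
    exact hm_I.mpr h1
  · have h1 := hm_I.mp (h (eI, 0, 2) (by simp))
    have h2 := hm_I.mp (h (eI, 1, 2) (by simp))
    exact Fin.ext (h1.trans h2.symm)
  · exact hm_On.mpr rfl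
  · exact hm_On.mpr rfl
  · exact absurd (h (eOff, 0, 0) (by simp)) hm_Off

theorem wordModel_data (hD : D.WF) (ha : ∀ i, a i < D.nl) (hc : ∀ i, c i < 2)
    (hon : D.onZ (D.GZ.cell (fun _ => D.z0) (N - 1) 0) = true)
    (hacc : D.acc (D.GV.cell (fun i => D.iniV (a i) (c i)) (N - 1) 0) = true) :
    ∀ ρ ∈ D.dataRules, TD.holdsRule (wordModel D N a c) ρ := by
  intro ρ hρ σ h
  unfold TD.dataRules at hρ
  simp only [List.mem_append, List.mem_flatMap, List.mem_map, List.mem_range, List.mem_filter,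
    List.mem_singleton] at hρ
  rcases hρ with ((rfl | ⟨b, hb, b', hb', rfl⟩) | ⟨z, hz, rfl⟩) | ⟨z, ⟨hz, hz'⟩, rfl⟩
  · have h1 := hm_I.mp (h (eI, 0, 1) (by simp))
    refine (hm_Z hD.z0_lt).mpr ?_
    simp only at h1 ⊢
    rw [h1]
    exact ⟨by simpa using (σ 1).2, rfl⟩
  · have h1 := hm_I.mp (h (eI, 0, 1) (by simp))
    have h2 := (hm_Y hb').mp (h (eY b', 1, 1) (by simp))
    have h3 := (hm_Let hb).mp (h (eLet b, 1, 1) (by simp))
    refine (hm_V (hD.iniV_lt _ hb _ hb')).mpr ?_
    simp only at h1 h2 h3 ⊢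
    rw [h1]
    refine ⟨by simpa using (σ 1).2, ?_⟩
    rw [cell_zero, h2.2, h3.2]
  · have h1 := (hm_Z hz).mp (h (D.eZ z, 0, 1) (by simp))
    have h2 := hm_E.mp (h (eE, 0, 0) (by simp))
    have h3 := hm_F.mp (h (eF, 1, 1) (by simp))
    simp only at h1 h2 h3
    rw [h2.1, h3.1] at h1
    rw [h1.2] at hon
    simp only [hon, cond_true]
    exact hm_On.mpr rfl
  · have h1 := (hm_V hz).mp (h (D.eV z, 0, 1) (by simp))
    have h2 := hm_E.mp (h (eE, 0, 0) (by simp))
    have h3 := hm_F.mp (h (eF, 1, 1) (by simp))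
    simp only at h1 h2 h3
    rw [h2.1, h3.1] at h1
    rw [h1.2] at hacc
    rw [hacc] at hz'
    simp at hz'

theorem wordModel_ga {G : GA} (hG : G.Closed) {e : ℕ → ℕ} {w : ℕ → ℕ}
    (he : ∀ z < G.m, ∀ x y : Fin N, TD.holds (wordModel D N a c) (e z) x y ↔
      x.1 + y.1 < N ∧ G.cell w x.1 y.1 = z) :
    ∀ ρ ∈ TD.gaRules G e, TD.holdsRule (wordModel D N a c) ρ := by
  intro ρ hρ σ h
  unfold TD.gaRules at hρ
  simp only [List.mem_append, List.mem_flatMap, List.mem_map, List.mem_range] at hρ
  rcases hρ with ⟨b, hb, c', hc', rfl⟩ | ⟨a', ha', b, hb, c', hc', d, hd, rfl⟩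
  · have h1 := (he b hb _ _).mp (h (e b, 0, 1) (by simp))
    have h2 := (he c' hc' _ _).mp (h (e c', 0, 2) (by simp))
    have h3 := hm_F.mp (h (eF, 1, 1) (by simp))
    have h4 := hm_S.mp (h (eS, 1, 2) (by simp))
    have h5 := hm_S.mp (h (eS, 0, 3) (by simp))
    refine (he _ (hG.1 _ hb _ hc') _ _).mpr ?_
    simp only at h1 h2 h3 h4 h5 ⊢
    rw [h3.1] at h1 h4
    rw [h4] at h2
    rw [h5, h3.1, cell_succ_zero]
    refine ⟨by omega, ?_⟩
    rw [h1.2, h2.2]
  · have h1 := (he a' ha' _ _).mp (h (e a', 0, 1) (by simp))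
    have h2 := (he b hb _ _).mp (h (e b, 0, 2) (by simp))
    have h3 := (he c' hc' _ _).mp (h (e c', 0, 3) (by simp))
    have h4 := (he d hd _ _).mp (h (e d, 4, 1) (by simp))
    have h5 := hm_S.mp (h (eS, 1, 2) (by simp))
    have h6 := hm_S.mp (h (eS, 2, 3) (by simp))
    have h7 := hm_S.mp (h (eS, 0, 4) (by simp))
    refine (he _ (hG.2 _ ha' _ hb _ hc' _ hd) _ _).mpr ?_
    simp only at h1 h2 h3 h4 h5 h6 h7 ⊢
    rw [h5] at h2 h6
    rw [h6] at h3
    rw [h7] at h4
    rw [h7, h5, cell_succ_succ]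
    refine ⟨by omega, ?_⟩
    rw [h1.2, h2.2, h3.2, h4.2]

theorem wordModel_model (hD : D.WF) (ha : ∀ i, a i < D.nl) (hc : ∀ i, c i < 2)
    (hon : D.onZ (D.GZ.cell (fun _ => D.z0) (N - 1) 0) = true)
    (hacc : D.acc (D.GV.cell (fun i => D.iniV (a i) (c i)) (N - 1) 0) = true) :
    D.Model (wordModel D N a c) := by
  constructor
  · intro ρ hρ
    unfold TD.coreRules at hρ
    simp only [List.mem_append] at hρ
    rcases hρ with ((h | h) | h) | h
    · exact wordModel_base ρ h
    · exact wordModel_data hD ha hc hon hacc ρ h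
    · exact wordModel_ga hD.closedZ (fun z hz x y => hm_Z hz) ρ h
    · exact wordModel_ga hD.closedV (fun z hz x y => hm_V hz) ρ h
  · intro x _
    have h2 := hc x.1
    rcases Nat.lt_or_ge (c x.1) 1 with h | h
    · left; exact (hm_Y (by omega)).mpr ⟨rfl, by omega⟩
    · right; left; exact (hm_Y (by omega)).mpr ⟨rfl, by omega⟩

theorem wordStr_hom (ha : ∀ i, a i < D.nl) : IsHom (wordStr D N a) (wordModel D N a c) id := by
  intro r x y h
  show wX D N a c (r.1 + 2) x.1 y.1
  rcases h with ⟨h, h'⟩ | ⟨h, h'⟩ | ⟨h, h'⟩ | ⟨h, h'⟩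
  · rw [h]; exact wX_S.mpr h'
  · rw [h]; exact wX_F.mpr h'
  · rw [h]; exact wX_E.mpr h'
  · rw [h]; exact (wX_Let (ha _)).mpr ⟨h'.symm, rfl⟩

/-- homomorphisms preserve the truth of atoms other than falsity -/
theorem holds_hom {k : ℕ} {A B : Type} {S : BinStr k A} {S' : BinStr k B} {h : A → B}
    (hh : IsHom S S' h) {e : ℕ} {x y : A} (hx : TD.holds S e x y) :
    TD.holds S' e (h x) (h y) := by
  match e, hx with
  | 0, hx => exact congrArg h hx
  | e + 2, ⟨h', hx⟩ => exact ⟨h', hh _ _ _ hx⟩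

theorem wordStr_holds {e : ℕ} (h2 : 2 ≤ e) (hM : e < D.M) {x y : Fin N} :
    TD.holds (wordStr D N a) e x y ↔ 
      (e = eS ∧ y.1 = x.1 + 1) ∨ (e = eF ∧ x.1 = 0 ∧ y.1 = 0) ∨
      (e = eE ∧ x.1 = N - 1 ∧ y.1 = N - 1) ∨ (e = eLet (a x.1) ∧ y.1 = x.1) := by
  obtain ⟨r, rfl⟩ : ∃ r, e = r + 2 := ⟨e - 2, by omega⟩
  have hK : r < D.K := by unfold TD.K; omega
  unfold TD.holds
  constructor
  · rintro ⟨h, h'⟩; exact h'
  · intro h; exact ⟨hK, h⟩

/-- the word problem expressed by the word structures -/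
theorem word_csp (hD : D.WF) (hN : 1 ≤ N) (ha : ∀ i, a i < D.nl)
    (hon : D.onZ (D.GZ.cell (fun _ => D.z0) (N - 1) 0) = true) :
    (∃ (m : ℕ) (C : BinStr D.K (Fin m)), D.Model C ∧ ∃ h, IsHom (wordStr D N a) C h) ↔
      ∃ c : ℕ → ℕ, (∀ i, c i < 2) ∧
        D.acc (D.GV.cell (fun i => D.iniV (a i) (c i)) (N - 1) 0) = true := by
  constructor
  · rintro ⟨m, C, ⟨hC, hdis⟩, h, hh⟩
    have hX : ClosedUnder D.coreRules (TD.holds C) := fun ρ hρ σ hb => hC ρ hρ σ hb
    let p : ℕ → Fin m := fun i => h ⟨min i (N - 1), by omega⟩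
    have hF : TD.holds C eF (p 0) (p 0) := holds_hom hh
      ((wordStr_holds (by decide) (lt_of_lt_of_le (by decide) M_ge)).mpr
        (Or.inr (Or.inl ⟨rfl, by simp, by simp⟩)))
    have hE : TD.holds C eE (p (N - 1)) (p (N - 1)) := holds_hom hh
      ((wordStr_holds (by decide) (lt_of_lt_of_le (by decide) M_ge)).mpr
        (Or.inr (Or.inr (Or.inl ⟨rfl, by simp, by simp⟩))))
    have hS : ∀ i, i + 1 < N → TD.holds C eS (p i) (p (i + 1)) := fun i hi => holds_hom hh
      ((wordStr_holds (by decide) (lt_of_lt_of_le (by decide) M_ge)).mpr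
        (Or.inl ⟨rfl, by simp only; omega⟩))
    have hLet : ∀ i < N, TD.holds C (eLet (a i)) (p i) (p i) := fun i hi => holds_hom hh
      ((wordStr_holds (by unfold eLet; omega)
        (by have := ha i; unfold eLet TD.M; omega)).mpr
        (Or.inr (Or.inr (Or.inr ⟨by
          have : min i (N - 1) = i := by omega
          simp only [this], rfl⟩))))
    have hst := path_status hD hX hN hF hS hE
    rw [hon] at hst
    simp only [cond_true] at hst
    have hOn : ∀ i < N, TD.holds C eOn (p i) (p i) := by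
      intro i
      induction i with
      | zero => intro _; exact hst
      | succ i ih =>
        intro hi
        exact use_base hX ([(eOn, 0, 0), (eS, 0, 1)], (eOn, 1, 1)) (by decide)
          (asg (p i) (p (i + 1)) (p i)) (by
            intro b hb
            simp only [List.mem_cons, List.not_mem_nil, or_false] at hb
            rcases hb with rfl | rfl
            · exact ih (by omega)
            · exact hS i hi)
    have hSL : ∀ i < N, ¬ TD.holds C eSL (p i) (p i) := by
      intro i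
      induction i with
      | zero =>
        intro _ hs
        exact use_base hX ([(eSL, 0, 0), (eF, 0, 0)], (eBOT, 0, 0)) (by decide)
          (asg (p 0) (p 0) (p 0)) (by
            intro b hb
            simp only [List.mem_cons, List.not_mem_nil, or_false] at hb
            rcases hb with rfl | rfl
            · exact hs
            · exact hF)
      | succ i ih =>
        intro hi hs
        exact ih (by omega) (use_base hX ([(eSL, 1, 1), (eS, 0, 1)], (eSL, 0, 0)) (by decide)
          (asg (p i) (p (i + 1)) (p i)) (by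
            intro b hb
            simp only [List.mem_cons, List.not_mem_nil, or_false] at hb
            rcases hb with rfl | rfl
            · exact hs
            · exact hS i hi))
    have hSR : ∀ j, j < N → ¬ TD.holds C eSR (p (N - 1 - j)) (p (N - 1 - j)) := by
      intro j
      induction j with
      | zero =>
        intro _ hs
        exact use_base hX ([(eSR, 0, 0), (eE, 0, 0)], (eBOT, 0, 0)) (by decide)
          (asg (p (N - 1)) (p 0) (p 0)) (by
            intro b hb
            simp only [List.mem_cons, List.not_mem_nil, or_false] at hb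
            rcases hb with rfl | rfl
            · exact hs
            · exact hE)
      | succ j ih =>
        intro hj hs
        have e1 : N - 1 - j = N - 1 - (j + 1) + 1 := by omega
        refine ih (by omega) ?_
        rw [e1]
        exact use_base hX ([(eSR, 0, 0), (eS, 0, 1)], (eSR, 1, 1)) (by decide)
          (asg (p (N - 1 - (j + 1))) (p (N - 1 - (j + 1) + 1)) (p 0)) (by
            intro b hb
            simp only [List.mem_cons, List.not_mem_nil, or_false] at hb
            rcases hb with rfl | rfl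
            · exact hs
            · exact hS _ (by omega))
    have hY : ∀ i, ∃ b, b < 2 ∧ (i < N → TD.holds C (eY b) (p i) (p i)) := by
      intro i
      by_cases hi : i < N
      · have e1 : i = N - 1 - (N - 1 - i) := by omega
        have hsr := hSR (N - 1 - i) (by omega)
        rw [← e1] at hsr
        rcases hdis (p i) (hOn i hi) with h0 | h1 | h2 | h3
        · exact ⟨0, by omega, fun _ => h0⟩
        · exact ⟨1, by omega, fun _ => h1⟩
        · exact absurd h2 (hSL i hi)
        · exact absurd h3 hsr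
      · exact ⟨0, by omega, fun h => absurd h hi⟩
    choose c hc2 hcY using hY
    refine ⟨c, hc2, ?_⟩
    by_contra hacc
    have hacc' : D.acc (D.GV.cell (fun i => D.iniV (a i) (c i)) (N - 1) 0) = false := by
      simpa using hacc
    obtain ⟨u, hu⟩ := path_reject hD hX hN hF hS (fun i _ => ha i) (fun i _ => hc2 i) hLet
      (fun i hi => hcY i hi) hE hacc'
    exact hu
  · rintro ⟨c, hc, hacc⟩
    exact ⟨N, wordModel D N a c, wordModel_model hD ha hc hon hacc, id, wordStr_hom ha⟩

end

end Pool.Agent.Helper69
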