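import Pool.Agent.Helper21.LR.Stmts

/-!
MP_6358c9_nt (Laurent and Roy): module LR-FACTOR, the irreducible factors of `g` are Chow forms.
-/

open MvPolynomial

namespace Pool.Agent.Helper69.LRFactor

open Pool.Agent.Helper21.LR

/-- the algebraic matroid of `ℂ` over `ℤ` -/
noncomputable abbrev Mt : Matroid ℂ := AlgebraicIndependent.matroid ℤ ℂ

theorem rk_eq (S : Set ℂ) : rk S = Mt.eRk S := rfl

theorem rk_mono {S T : Set ℂ} (h : S ⊆ T) : rk S ≤ rk T := Mt.eRk_mono h

theorem indep_range {κ : Type} {x : κ → ℂ} (hx : AlgebraicIndependent ℤ x) :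
    Mt.Indep (Set.range x) := by
  rw [AlgebraicIndependent.matroid_indep_iff]
  exact hx.to_subtype_range

theorem rk_of_indep {κ : Type} [Fintype κ] {x : κ → ℂ} (hx : AlgebraicIndependent ℤ x) :
    rk (Set.range x) = Fintype.card κ := by
  rw [rk_eq, (indep_range hx).eRk_eq_encard, ← Set.image_univ,
    Function.Injective.encard_image hx.injective, Set.encard_univ, ENat.card_eq_coe_fintype_card]

theorem indep_of_rk {κ : Type} [Fintype κ] {x : κ → ℂ}
    (h : (Fintype.card κ : ℕ∞) ≤ rk (Set.range x)) : AlgebraicIndependent ℤ x := by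
  classical
  have h1 : rk (Set.range x) ≤ (Set.range x).encard := Mt.eRk_le_encard _
  have h2 : (Set.range x).encard ≤ Fintype.card κ := by
    rw [← Set.image_univ]
    refine (Set.encard_image_le _ _).trans ?_
    rw [Set.encard_univ, ENat.card_eq_coe_fintype_card]
  have hfin : (Set.range x).Finite := Set.finite_range x
  have hinj : Function.Injective x := by
    have h3 : (Set.range x).encard = Fintype.card κ := le_antisymm h2 (h.trans h1)
    have h4 : (Finset.univ.image x).card = (Finset.univ : Finset κ).card := by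
      have h5 : ((Finset.univ.image x : Finset ℂ) : Set ℂ).encard = Fintype.card κ := by
        rw [Finset.coe_image, Finset.coe_univ, Set.image_univ, h3]
      rw [Set.encard_coe_eq_coe_finsetCard] at h5
      rw [Finset.card_univ]
      exact_mod_cast h5
    have h6 := Finset.card_image_iff.mp h4
    intro a b hab
    exact h6 (by simp) (by simp) hab
  have hind : Mt.Indep (Set.range x) := by
    obtain ⟨I, hI, hI1, hI2⟩ := (Mt.le_eRk_iff (X := Set.range x)).mp h
    have : I = Set.range x := by
      apply Set.Finite.eq_of_subset_of_encard_le (hfin.subset hI) hI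
      rw [hI2]; exact h2
    rw [← this]; exact hI1
  rw [AlgebraicIndependent.matroid_indep_iff] at hind
  have h7 : AlgebraicIndependent ℤ (fun i : Set.range x => (i : ℂ)) := hind
  have h8 := h7.comp (Set.rangeFactorization x) (by
    intro a b hab
    exact hinj (congrArg Subtype.val hab))
  exact h8

/-- a divisor involves no more variables -/
theorem vars_of_dvd {κ : Type} [DecidableEq κ] {P G : MvPolynomial κ ℤ} (h : P ∣ G) (hG : G ≠ 0) :
    P.vars ⊆ G.vars := by
  obtain ⟨K, rfl⟩ := h
  have hP : P ≠ 0 := left_ne_zero_of_mul hG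
  have hK : K ≠ 0 := right_ne_zero_of_mul hG
  intro i hi
  rw [MvPolynomial.mem_vars_iff_degreeOf_ne_zero] at hi ⊢
  rw [MvPolynomial.degreeOf_mul_eq hP hK]
  omega

theorem mem_closure_of_mem_adjoin {S : Set ℂ} {z : ℂ} (h : z ∈ Algebra.adjoin ℤ S) :
    z ∈ Mt.closure S := by
  rw [AlgebraicIndependent.matroid_closure_eq, SetLike.mem_coe, Subalgebra.mem_algebraicClosure]
  exact isAlgebraic_algebraMap (⟨z, h⟩ : Algebra.adjoin ℤ S)

theorem aeval_mem_adjoin {κ : Type} (x : κ → ℂ) (Q : MvPolynomial κ ℤ) :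
    aeval x Q ∈ Algebra.adjoin ℤ (Set.range x) := by
  rw [Algebra.adjoin_range_eq_range_aeval]
  exact ⟨Q, rfl⟩

/-- coordinates of a generic zero, one variable of `P` removed, are independent -/
theorem indep_others {κ : Type} [DecidableEq κ] {P : MvPolynomial κ ℤ} {z : κ → ℂ}
    (hz : ∀ G : MvPolynomial κ ℤ, aeval z G = 0 ↔ P ∣ G) {v : κ} (hv : v ∈ P.vars) :
    AlgebraicIndependent ℤ (fun i : {i : κ // i ≠ v} => z i) := by
  rw [algebraicIndependent_iff]
  intro G hG
  by_contra hne
  have h1 : aeval z (rename (Subtype.val : {i : κ // i ≠ v} → κ) G) = 0 := by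
    rw [aeval_rename]; exact hG
  have h2 := (hz _).mp h1
  have h3 : rename (Subtype.val : {i : κ // i ≠ v} → κ) G ≠ 0 := by
    intro h
    apply hne
    apply rename_injective _ Subtype.val_injective
    rw [h, map_zero]
  have h4 := vars_of_dvd h2 h3 hv
  have h5 := vars_rename (Subtype.val : {i : κ // i ≠ v} → κ) G h4
  rw [Finset.mem_image] at h5
  obtain ⟨w, _, hw⟩ := h5
  exact w.2 hw

/-- the dimension does not increase under specialisation when `Q` becomes zero -/
theorem spec_lt {m r : ℕ} {ξ η : Fin m → ℂ} (hOn : OnV ξ η) (hξ : trd ξ = (r+1 : ℕ))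
    (Q : MvPolynomial (Fin m) ℤ) (hQξ : aeval ξ Q ≠ 0) (hQη : aeval η Q = 0) : trd η ≤ r := by
  by_contra hcon
  have hge : ((r + 1 : ℕ) : ℕ∞) ≤ trd η := by
    rw [not_le] at hcon
    have := Order.add_one_le_of_lt hcon
    exact_mod_cast this
  obtain ⟨I, hI, hIind, hIcard⟩ := (Mt.le_eRk_iff (X := Set.range η)).mp hge
  choose J hJ using fun i : I => hI i.2
  have hηJ : AlgebraicIndependent ℤ (η ∘ J) := by
    have : (η ∘ J) = (fun i : I => (i : ℂ)) := by
      funext i; exact hJ i
    rw [this]
    exact hIind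
  have hξJ : AlgebraicIndependent ℤ (ξ ∘ J) := by
    rw [algebraicIndependent_iff] at hηJ ⊢
    intro G hG
    apply hηJ
    have h1 : aeval ξ (rename J G) = 0 := by rw [aeval_rename]; exact hG
    have h2 := hOn _ h1
    rw [aeval_rename] at h2
    exact h2
  -- `ξ ∘ J` is a transcendence basis
  have hrange : (Set.range (ξ ∘ J)).encard = (r + 1 : ℕ) := by
    rw [← Set.image_univ, Function.Injective.encard_image hξJ.injective, Set.encard_univ]
    rw [← hIcard]; rfl
  have hbasis : Mt.IsBasis (Set.range (ξ ∘ J)) (Set.range ξ) := by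
    apply Matroid.Indep.isBasis_of_eRk_ge (indep_range hξJ) _ (Set.range_comp_subset_range J ξ)
    · have h1 : Mt.eRk (Set.range ξ) = (r + 1 : ℕ) := hξ
      rw [h1, (indep_range hξJ).eRk_eq_encard, hrange]
    · exact (Set.finite_range ξ).subset (Set.range_comp_subset_range J ξ)
  have halg : IsAlgebraic (Algebra.adjoin ℤ (Set.range (ξ ∘ J))) (aeval ξ Q) := by
    have h1 : aeval ξ Q ∈ Mt.closure (Set.range ξ) :=
      mem_closure_of_mem_adjoin (aeval_mem_adjoin ξ Q)
    rw [← hbasis.closure_eq_closure, AlgebraicIndependent.matroid_closure_eq, SetLike.mem_coe,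
      Subalgebra.mem_algebraicClosure] at h1
    exact h1
  obtain ⟨q, hq0, hq⟩ := halg.exists_nonzero_coeff_and_aeval_eq_zero
    (mem_nonZeroDivisors_of_ne_zero hQξ)
  let e := hξJ.aevalEquiv
  let h : Polynomial (MvPolynomial I ℤ) := q.map (e.symm : _ →+* MvPolynomial I ℤ)
  have hh0 : h.coeff 0 ≠ 0 := by
    rw [Polynomial.coeff_map]
    intro h1
    apply hq0
    apply e.symm.injective
    rw [map_zero]
    exact h1
  let R : MvPolynomial (Fin m) ℤ := Polynomial.eval₂ (rename J : MvPolynomial I ℤ →ₐ[ℤ] _).toRingHom Q h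
  have hRξ : aeval ξ R = 0 := by
    have h1 : aeval ξ R = Polynomial.eval₂ (((aeval ξ : MvPolynomial (Fin m) ℤ →ₐ[ℤ] ℂ).toRingHom.comp
        (rename J : MvPolynomial I ℤ →ₐ[ℤ] _).toRingHom)) (aeval ξ Q) h := by
      exact Polynomial.hom_eval₂ h _ (aeval ξ : MvPolynomial (Fin m) ℤ →ₐ[ℤ] ℂ).toRingHom Q
    rw [h1, Polynomial.eval₂_map]
    rw [Polynomial.aeval_def] at hq
    rw [← hq]
    congr 1
    ext y
    obtain ⟨G, rfl⟩ := e.surjective y
    simp only [RingHom.coe_comp, Function.comp_apply, AlgHom.toRingHom_eq_coe, RingHom.coe_coe,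
      AlgEquiv.symm_apply_apply, aeval_rename]
    rfl
  have hRη := hOn _ hRξ
  have hRη2 : aeval η R = aeval (η ∘ J) (h.coeff 0) := by
    have h1 : aeval η R = Polynomial.eval₂ (((aeval η : MvPolynomial (Fin m) ℤ →ₐ[ℤ] ℂ).toRingHom.comp
        (rename J : MvPolynomial I ℤ →ₐ[ℤ] _).toRingHom)) (aeval η Q) h := by
      exact Polynomial.hom_eval₂ h _ (aeval η : MvPolynomial (Fin m) ℤ →ₐ[ℤ] ℂ).toRingHom Q
    rw [h1, hQη, Polynomial.eval₂_at_zero]
    simp only [RingHom.coe_comp, Function.comp_apply, AlgHom.toRingHom_eq_coe, RingHom.coe_coe,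
      aeval_rename]
  rw [hRη2] at hRη
  rw [algebraicIndependent_iff] at hηJ
  exact hh0 (hηJ _ hRη)

/-- an independent family of coefficients over the field of `η` detects vanishing -/
theorem generic_u {m s : ℕ} {η : Fin m → ℂ} {w : Fin s × Fin m → ℂ}
    {S : Type} [CommRing S] [Algebra S ℂ] (hw : AlgebraicIndependent S w)
    {e : Fin m → S} (he : ∀ j, algebraMap S ℂ (e j) = η j)
    (G : MvPolynomial (Fin s × Fin (m+1)) ℤ) (h : aeval (thr η w) G = 0)
    (u : Fin s × Fin m → ℂ) : aeval (thr η u) G = 0 := by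
  let v : Fin s × Fin (m+1) → MvPolynomial (Fin s × Fin m) S :=
    fun ij => Fin.cases (motive := fun _ => MvPolynomial (Fin s × Fin m) S)
      (-∑ j, C (e j) * X (ij.1, j)) (fun j => X (ij.1, j)) ij.2
  have key : ∀ u : Fin s × Fin m → ℂ, aeval u (aeval v G) = aeval (thr η u) G := by
    intro u
    have h1 : ((aeval u : MvPolynomial (Fin s × Fin m) S →ₐ[S] ℂ).toRingHom.comp
        (aeval v : MvPolynomial (Fin s × Fin (m+1)) ℤ →ₐ[ℤ] _).toRingHom) =
        (aeval (thr η u) : MvPolynomial (Fin s × Fin (m+1)) ℤ →ₐ[ℤ] ℂ).toRingHom := by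
      apply MvPolynomial.ringHom_ext
      · intro a; simp
      · rintro ⟨i, j⟩
        refine Fin.cases ?_ (fun j => ?_) j
        · simp [v, thr, mul_comm, he]
        · simp [v, thr]
    exact congrArg (fun f => f G) h1
  rw [← key] at h
  rw [algebraicIndependent_iff] at hw
  have h1 := hw _ h
  rw [← key, h1, map_zero]

theorem factor (hGZ : SGenZero) : SFactor := by
  classical
  intro m r ξ F hV S Q d hd hQ P hP hPg
  by_cases hconst : ∃ c : ℤ, P = C c
  · obtain ⟨c, rfl⟩ := hconst
    exact Or.inl ⟨C c, by simp⟩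
  push Not at hconst
  obtain ⟨Z, hZ⟩ := hGZ _ P hP hconst
  set z : Fin (r+1) × Fin m → ℂ := fun ij => Z (ij.1, ij.2.succ) with hzdef
  have hvars : P.vars.Nonempty := by
    rw [Finset.nonempty_iff_ne_empty]
    intro h
    rw [vars_eq_empty_iff_eq_C] at h
    exact hconst _ h
  by_cases ha : aeval z S.a = 0
  · left
    have h1 : aeval Z (rename (fun ij : Fin (r+1) × Fin m => (ij.1, ij.2.succ)) S.a) = 0 := by
      rw [aeval_rename]; exact ha
    have h2 := (hZ _).mp h1
    have hinj : Function.Injective (fun ij : Fin (r+1) × Fin m => ((ij.1, ij.2.succ) :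
        Fin (r+1) × Fin (m+1))) := by
      rintro ⟨a, b⟩ ⟨c, e⟩ h
      simp only [Prod.mk.injEq, Fin.succ_inj] at h
      rw [h.1, h.2]
    have h3 : rename (fun ij : Fin (r+1) × Fin m => ((ij.1, ij.2.succ) :
        Fin (r+1) × Fin (m+1))) S.a ≠ 0 := by
      intro h
      apply S.a_ne
      apply rename_injective _ hinj
      rw [h, map_zero]
    have h4 := vars_of_dvd h2 h3
    have h5 := h4.trans (vars_rename _ _)
    obtain ⟨P', hP'⟩ := exists_rename_eq_of_vars_subset_range P _ hinj (by
      intro i hi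
      have := h5 hi
      rw [Finset.mem_image] at this
      obtain ⟨w, _, hw⟩ := this
      exact ⟨w, hw⟩)
    exact ⟨P', hP'.symm⟩
  · right
    obtain ⟨p, hp1, hp2, -, hp4⟩ := S.pts Z ha
    have hg0 : aeval Z (S.g Q d) = 0 := (hZ _).mpr hPg
    rw [hp4 Q d hd] at hg0
    have hprod : ∏ σ, aeval (p σ) Q = 0 := by
      rcases mul_eq_zero.mp hg0 with h | h
      · exact absurd (eq_zero_of_pow_eq_zero h) ha
      · exact h
    obtain ⟨σ, -, hσ⟩ := Finset.prod_eq_zero_iff.mp hprod
    set η := p σ with hη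
    have hthr : thr η z = Z := by
      funext ij
      obtain ⟨i, j⟩ := ij
      refine Fin.cases ?_ (fun j => ?_) j
      · have := hp2 σ i
        simp only [thr, hzdef, Fin.cases_zero]
        linear_combination -this
      · simp [thr, hzdef]
    -- ranks
    obtain ⟨v, hv⟩ := hvars
    have hrkZ : (((r+1) * m + r : ℕ) : ℕ∞) ≤ rk (Set.range Z) := by
      have h1 := rk_of_indep (indep_others hZ hv)
      have h2 : Fintype.card {i : Fin (r+1) × Fin (m+1) // i ≠ v} = (r+1) * m + r := by
        rw [Fintype.card_subtype_compl, Fintype.card_prod, Fintype.card_fin, Fintype.card_fin,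
          Fintype.card_subtype_eq]
        ring_nf
        omega
      rw [← h2, ← h1]
      apply rk_mono
      rintro _ ⟨i, rfl⟩
      exact ⟨i, rfl⟩
    have hsub : Set.range Z ⊆ Mt.closure (Set.range η ∪ Set.range z) := by
      rintro _ ⟨⟨i, j⟩, rfl⟩
      apply mem_closure_of_mem_adjoin
      rw [← hthr]
      refine Fin.cases ?_ (fun j => ?_) j
      · simp only [thr, Fin.cases_zero]
        refine neg_mem (Subalgebra.sum_mem _ fun j _ => mul_mem ?_ ?_)
        · exact Algebra.subset_adjoin (Or.inr ⟨_, rfl⟩)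
        · exact Algebra.subset_adjoin (Or.inl ⟨_, rfl⟩)
      · simp only [thr, Fin.cases_succ]
        exact Algebra.subset_adjoin (Or.inr ⟨_, rfl⟩)
    have hrk1 : rk (Set.range Z) ≤ Mt.eRk (Set.range η ∪ Set.range z) := by
      rw [← Matroid.eRk_closure_eq]
      exact rk_mono hsub
    have htrd : trd η ≤ r := spec_lt (hp1 σ) hV.dim Q hQ hσ
    obtain ⟨I, hI⟩ := Mt.exists_isBasis (Set.range η)
    have hIcard : I.encard = trd η := hI.encard_eq_eRk
    have hIfin : I.Finite := (Set.finite_range η).subset hI.subset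
    have : Fintype I := hIfin.fintype
    have hIc : (Fintype.card I : ℕ∞) = trd η := by
      rw [← hIcard, Set.encard, ENat.card_eq_coe_fintype_card]
    have hfam : AlgebraicIndependent ℤ (Sum.elim z (fun i : I => (i : ℂ))) := by
      apply indep_of_rk
      rw [Fintype.card_sum, Fintype.card_prod, Fintype.card_fin, Fintype.card_fin]
      have h1 : Set.range (Sum.elim z (fun i : I => (i : ℂ))) = I ∪ Set.range z := by
        rw [Set.Sum.elim_range, Subtype.range_coe, Set.union_comm]
      rw [h1, rk_eq, hI.eRk_eq_eRk_union]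
      refine le_trans ?_ (hrkZ.trans hrk1)
      have h2 : Fintype.card I ≤ r := by
        have := hIc.trans_le htrd
        exact_mod_cast this
      exact_mod_cast Nat.add_le_add_left h2 _
    have hdim : trd η = r := by
      apply le_antisymm htrd
      have h1 : (((r+1) * m + r : ℕ) : ℕ∞) ≤ trd η + Mt.eRk (Set.range z) :=
        (hrkZ.trans hrk1).trans (Mt.eRk_union_le_eRk_add_eRk _ _)
      have h2 : Mt.eRk (Set.range z) ≤ ((r+1) * m : ℕ) := by
        refine (Mt.eRk_le_encard _).trans ?_
        rw [← Set.image_univ]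
        refine (Set.encard_image_le _ _).trans ?_
        rw [Set.encard_univ, ENat.card_eq_coe_fintype_card, Fintype.card_prod, Fintype.card_fin,
          Fintype.card_fin]
      rw [← hIc] at h1 ⊢
      have h3 := h1.trans (add_le_add_right h2 _)
      have h4 : (r+1) * m + r ≤ Fintype.card I + (r+1) * m := by exact_mod_cast h3
      have h5 : r ≤ Fintype.card I := by omega
      exact_mod_cast h5
    have hzS := (AlgebraicIndependent.sumElim_iff.mp hfam).2.subalgebraAlgebraicClosure
    refine ⟨η, ⟨⟨hP.ne_zero, fun G => ⟨fun h => ?_, fun h u => ?_⟩⟩, hdim⟩, hp1 σ, hσ⟩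
    · apply (hZ G).mp
      rw [← hthr]
      exact h z
    · have hmem : ∀ j, η j ∈ Subalgebra.algebraicClosure
          (Algebra.adjoin ℤ (Set.range (fun i : I => (i : ℂ)))) ℂ := by
        intro j
        have h1 : η j ∈ Mt.closure (Set.range η) :=
          mem_closure_of_mem_adjoin (Algebra.subset_adjoin ⟨j, rfl⟩)
        rw [← hI.closure_eq_closure, AlgebraicIndependent.matroid_closure_eq, SetLike.mem_coe,
          Subalgebra.mem_algebraicClosure] at h1
        rw [Subalgebra.mem_algebraicClosure]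
        rw [Subtype.range_coe]
        exact h1
      exact generic_u (η := η) hzS (e := fun j => ⟨η j, hmem j⟩) (fun j => rfl) G
        (by rw [hthr]; exact (hZ G).mpr h) u

end Pool.Agent.Helper69.LRFactor
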