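import Mathlib

set_option autoImplicit false

/-!
# Additive cubes: definitions used in the statements
-/

namespace Pool.Agent.CubeDefs

/-- A finite word of integers is an additive cube when it is a concatenation of three
nonempty words of the same length and the same sum. -/
def IsAdditiveCube (u : List ℤ) : Prop :=
  ∃ x y z : List ℤ, u = x ++ y ++ z ∧ x ≠ [] ∧ y ≠ [] ∧ z ≠ [] ∧
    x.length = y.length ∧ y.length = z.length ∧ x.sum = y.sum ∧ y.sum = z.sum

/-- The factor of length `n` of the infinite word `v` that starts at position `p`. -/
def factor (v : ℕ → ℤ) (p n : ℕ) : List ℤ := (List.range n).map (fun k => v (p + k))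

/-- Additive cubes are avoidable over the alphabet `A`: some infinite word over `A` has no
factor that is an additive cube. -/
def AdditiveCubesAvoidable (A : Finset ℤ) : Prop :=
  ∃ v : ℕ → ℤ, (∀ n, v n ∈ A) ∧ ∀ p n : ℕ, ¬ IsAdditiveCube (factor v p n)

end Pool.Agent.CubeDefs
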