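import Mathlib
import Pool.Agent.Helper69.CubeDefs

set_option autoImplicit false

/-!
# Reduction of additive cubes over three letter alphabets to abelian cubes
-/

open Finset

namespace Pool.Agent.Helper69.Cube

open Pool.Agent.CubeDefs

/-- Number of `k < n` with `w k = c`. -/
def cnt (w : ℕ → Fin 3) (c : Fin 3) (n : ℕ) : ℕ :=
  ((range n).filter (fun k => w k = c)).card

/-- The prefix sum of an integer word. -/
def pre (v : ℕ → ℤ) (n : ℕ) : ℤ := ∑ k ∈ range n, v k

/-- The second difference of the counting function of the letter `c`. -/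
def dd (w : ℕ → Fin 3) (c : Fin 3) (p L : ℕ) : ℤ :=
  (cnt w c (p + 2 * L) : ℤ) - 2 * (cnt w c (p + L) : ℤ) + (cnt w c p : ℤ)

/-- There is no additive cube in `v`, in terms of blocks of equal length. -/
def CubeFree (v : ℕ → ℤ) : Prop :=
  ∀ p L : ℕ, 0 < L →
    ¬ ((∑ k ∈ range L, v (p + k)) = (∑ k ∈ range L, v (p + L + k)) ∧
       (∑ k ∈ range L, v (p + L + k)) = (∑ k ∈ range L, v (p + 2 * L + k)))

theorem pre_add (v : ℕ → ℤ) (p L : ℕ) : pre v (p + L) = pre v p + ∑ k ∈ range L, v (p + k) := by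
  unfold pre
  exact Finset.sum_range_add v p L

theorem block_eq (v : ℕ → ℤ) (p L : ℕ) :
    (∑ k ∈ range L, v (p + k)) = pre v (p + L) - pre v p := by
  rw [pre_add]; ring

/-! ## From lists to blocks -/

theorem factor_length (v : ℕ → ℤ) (p n : ℕ) : (factor v p n).length = n := by
  simp [factor]

theorem factor_sum (v : ℕ → ℤ) (p n : ℕ) : (factor v p n).sum = ∑ k ∈ range n, v (p + k) := by
  induction n with
  | zero => simp [factor]
  | succ n ih =>
    rw [Finset.sum_range_succ, ← ih]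
    simp [factor, List.range_succ]

theorem factor_add (v : ℕ → ℤ) (p m n : ℕ) :
    factor v p (m + n) = factor v p m ++ factor v (p + m) n := by
  unfold factor
  rw [List.range_add, List.map_append, List.map_map]
  congr 1
  apply List.map_congr_left
  intro k _
  simp [add_assoc]

theorem not_cube_of_cubeFree {v : ℕ → ℤ} (h : CubeFree v) (p n : ℕ) :
    ¬ IsAdditiveCube (factor v p n) := by
  rintro ⟨x, y, z, hu, hx, -, -, hxy, hyz, hs1, hs2⟩
  set L := x.length with hL
  have hLpos : 0 < L := List.length_pos_of_ne_nil hx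
  have hn : n = L + L + L := by
    have := congrArg List.length hu
    rw [factor_length, List.length_append, List.length_append, ← hyz, ← hxy] at this
    exact this
  subst hn
  rw [factor_add, factor_add] at hu
  have h1 := List.append_inj hu (by
    rw [List.length_append, List.length_append, factor_length, factor_length, ← hxy])
  have h2 := List.append_inj h1.1 (by rw [factor_length])
  obtain ⟨h3, h4⟩ := h2
  have h5 := h1.2
  rw [← h3, ← h4, factor_sum, factor_sum] at hs1
  rw [← h4, ← h5, factor_sum, factor_sum] at hs2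
  refine h p L hLpos ⟨hs1, ?_⟩
  rw [hs2]
  apply Finset.sum_congr rfl
  intro k _
  congr 1
  ring

theorem avoidable_of_cubeFree {A : Finset ℤ} {v : ℕ → ℤ} (hA : ∀ n, v n ∈ A)
    (h : CubeFree v) : AdditiveCubesAvoidable A :=
  ⟨v, hA, fun p n => not_cube_of_cubeFree h p n⟩

/-- Conversely, a word none of whose factors is an additive cube has no cube of blocks. -/
theorem cubeFree_of_not_cube {v : ℕ → ℤ} (h : ∀ p n : ℕ, ¬ IsAdditiveCube (factor v p n)) :
    CubeFree v := by
  rintro p L hL ⟨h1, h2⟩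
  refine h p (L + L + L) ⟨factor v p L, factor v (p + L) L, factor v (p + (L + L)) L, ?_,
    ?_, ?_, ?_, ?_, ?_, ?_, ?_⟩
  · rw [factor_add, factor_add]
  · intro h0
    have := congrArg List.length h0
    rw [factor_length] at this
    simp at this
    omega
  · intro h0
    have := congrArg List.length h0
    rw [factor_length] at this
    simp at this
    omega
  · intro h0
    have := congrArg List.length h0
    rw [factor_length] at this
    simp at this
    omega
  · rw [factor_length, factor_length]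
  · rw [factor_length, factor_length]
  · rw [factor_sum, factor_sum, h1]
  · rw [factor_sum, factor_sum, h2]
    apply Finset.sum_congr rfl
    intro k _
    congr 1
    ring

/-! ## Affine maps -/

theorem cubeFree_affine {v : ℕ → ℤ} (h : CubeFree v) (q p : ℤ) (hp : p ≠ 0) :
    CubeFree (fun n => q + p * v n) := by
  intro s L hL
  have key : ∀ t : ℕ, (∑ k ∈ range L, (q + p * v (t + k))) = L * q + p * ∑ k ∈ range L, v (t + k) := by
    intro t
    rw [Finset.sum_add_distrib, ← Finset.mul_sum]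
    simp
  simp only [key]
  rintro ⟨h1, h2⟩
  refine h s L hL ⟨?_, ?_⟩
  · exact mul_left_cancel₀ hp (by linarith)
  · exact mul_left_cancel₀ hp (by linarith)

theorem avoidable_affine {A : Finset ℤ} (h : AdditiveCubesAvoidable A) (q p : ℤ) (hp : p ≠ 0) :
    AdditiveCubesAvoidable (A.image (fun x => q + p * x)) := by
  obtain ⟨v, hv, hc⟩ := h
  have := cubeFree_affine (cubeFree_of_not_cube hc) q p hp
  exact avoidable_of_cubeFree (fun n => Finset.mem_image_of_mem _ (hv n)) this

theorem avoidable_affine3 {a b c : ℤ} (h : AdditiveCubesAvoidable {a, b, c}) (q p : ℤ)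
    (hp : p ≠ 0) : AdditiveCubesAvoidable {q + p * a, q + p * b, q + p * c} := by
  have := avoidable_affine h q p hp
  simpa [Finset.image_insert, Finset.image_singleton] using this

/-! ## Normal form of a three letter alphabet -/

theorem sorted_three (A : Finset ℤ) (hA : A.card = 3) :
    ∃ x y z : ℤ, x < y ∧ y < z ∧ A = {x, y, z} := by
  obtain ⟨a, b, c, hab, hac, hbc, rfl⟩ := Finset.card_eq_three.1 hA
  rcases lt_or_gt_of_ne hab with h1 | h1 <;> rcases lt_or_gt_of_ne hac with h2 | h2 <;>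
    rcases lt_or_gt_of_ne hbc with h3 | h3
  · exact ⟨a, b, c, h1, h3, rfl⟩
  · exact ⟨a, c, b, h2, h3, by ext t; simp; tauto⟩
  · exact absurd (h1.trans h3) (not_lt.2 h2.le)
  · exact ⟨c, a, b, h2, h1, by ext t; simp; tauto⟩
  · exact ⟨b, a, c, h1, h2, by ext t; simp; tauto⟩
  · exact absurd (h1.trans h2) (not_lt.2 h3.le)
  · exact ⟨b, c, a, h3, h2, by ext t; simp; tauto⟩
  · exact ⟨c, b, a, h3, h1, by ext t; simp; tauto⟩

/-- Every three letter alphabet is an affine image of `{0, i, j}` with `0 < i`, `2 i ≤ j` and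
`i`, `j` coprime. -/
theorem exists_normal_form (A : Finset ℤ) (hA : A.card = 3) :
    ∃ (q p : ℤ) (i j : ℕ), p ≠ 0 ∧ 0 < i ∧ 2 * i ≤ j ∧ Nat.Coprime i j ∧
      A = {q, q + p * i, q + p * j} := by
  obtain ⟨x, y, z, hxy, hyz, rfl⟩ := sorted_three A hA
  obtain ⟨m, hm⟩ : ∃ m : ℕ, (m : ℤ) = y - x := ⟨(y - x).toNat, by omega⟩
  obtain ⟨n, hn⟩ : ∃ n : ℕ, (n : ℤ) = z - x := ⟨(z - x).toNat, by omega⟩
  have hm0 : 0 < m := by omega
  have hmn : m < n := by omega
  set g := Nat.gcd m n with hg
  have hg0 : 0 < g := Nat.gcd_pos_of_pos_left _ hm0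
  obtain ⟨i, hi⟩ : g ∣ m := Nat.gcd_dvd_left _ _
  obtain ⟨j, hj⟩ : g ∣ n := Nat.gcd_dvd_right _ _
  have hij : Nat.Coprime i j := by
    have := Nat.coprime_div_gcd_div_gcd (m := m) (n := n) hg0
    have e1 : m / Nat.gcd m n = i := Nat.div_eq_of_eq_mul_right hg0 hi
    have e2 : n / Nat.gcd m n = j := Nat.div_eq_of_eq_mul_right hg0 hj
    rwa [e1, e2] at this
  have hi0 : 0 < i := Nat.pos_of_ne_zero (by rintro rfl; simp at hi; omega)
  have hij' : i < j := by
    rw [hi, hj] at hmn
    exact Nat.lt_of_mul_lt_mul_left hmn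
  have hy : y = x + (g : ℤ) * i := by
    have : (m : ℤ) = (g : ℤ) * i := by exact_mod_cast hi
    linarith
  have hz : z = x + (g : ℤ) * j := by
    have : (n : ℤ) = (g : ℤ) * j := by exact_mod_cast hj
    linarith
  by_cases h2 : 2 * i ≤ j
  · exact ⟨x, g, i, j, by exact_mod_cast hg0.ne', hi0, h2, hij, by rw [hy, hz]⟩
  · refine ⟨z, -g, j - i, j, by simp; omega, by omega, by omega, ?_, ?_⟩
    · exact (Nat.coprime_self_sub_left hij'.le).2 hij
    · have e1 : z + -(g : ℤ) * ((j - i : ℕ) : ℤ) = y := by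
        rw [Nat.cast_sub hij'.le, hy, hz]; ring
      have e2 : z + -(g : ℤ) * (j : ℤ) = x := by
        rw [hz]; ring
      rw [e1, e2]
      ext t; simp; tauto

/-- Reduction of the general alphabet to the normal forms. -/
theorem avoidable_of_normal_forms (K : ℕ)
    (h : ∀ i j : ℕ, 0 < i → 2 * i ≤ j → Nat.Coprime i j → K < j →
      AdditiveCubesAvoidable {0, (i : ℤ), (j : ℤ)})
    (A : Finset ℤ) (hA : A.card = 3)
    (hex : ∀ (q p : ℤ) (i j : ℕ), p ≠ 0 → 0 < i → 2 * i ≤ j → Nat.Coprime i j → j ≤ K →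
      A ≠ {q, q + p * i, q + p * j}) : AdditiveCubesAvoidable A := by
  obtain ⟨q, p, i, j, hp, hi, hij, hc, rfl⟩ := exists_normal_form A hA
  have hK : K < j := by
    by_contra hK
    exact hex q p i j hp hi hij hc (not_lt.1 hK) rfl
  have := avoidable_affine3 (h i j hi hij hc hK) q p hp
  simpa using this

/-- `K = 2`: every alphabet that is not a three term arithmetic progression. -/
theorem avoidable_two
    (h : ∀ i j : ℕ, 0 < i → 2 * i ≤ j → Nat.Coprime i j → 2 < j →
      AdditiveCubesAvoidable {0, (i : ℤ), (j : ℤ)})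
    (A : Finset ℤ) (hA : A.card = 3)
    (h2 : ∀ q p : ℤ, A ≠ {q, q + p, q + 2 * p}) : AdditiveCubesAvoidable A := by
  refine avoidable_of_normal_forms 2 h A hA ?_
  intro q p i j hp hi hij hc hj hA'
  have e1 : i = 1 := by omega
  have e2 : j = 2 := by omega
  subst e1 e2
  apply h2 q p
  rw [hA']
  push_cast
  rw [mul_one, mul_comm p 2]

/-- `K = 3`: every alphabet that is not an affine image of `{0, 1, 2}` or `{0, 1, 3}`. -/
theorem avoidable_three
    (h : ∀ i j : ℕ, 0 < i → 2 * i ≤ j → Nat.Coprime i j → 3 < j →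
      AdditiveCubesAvoidable {0, (i : ℤ), (j : ℤ)})
    (A : Finset ℤ) (hA : A.card = 3)
    (h2 : ∀ q p : ℤ, A ≠ {q, q + p, q + 2 * p}) (h3 : ∀ q p : ℤ, A ≠ {q, q + p, q + 3 * p}) :
    AdditiveCubesAvoidable A := by
  refine avoidable_of_normal_forms 3 h A hA ?_
  intro q p i j hp hi hij hc hj hA'
  have e1 : i = 1 := by omega
  subst e1
  rcases (by omega : j = 2 ∨ j = 3) with e2 | e2
  · subst e2
    apply h2 q p
    rw [hA']
    push_cast
    rw [mul_one, mul_comm p 2]
  · subst e2
    apply h3 q p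
    rw [hA']
    push_cast
    rw [mul_one, mul_comm p 3]

/-- `K = 5`: every alphabet that is not an affine image of one of
`{0, 1, 2}`, `{0, 1, 3}`, `{0, 1, 4}`, `{0, 1, 5}`, `{0, 2, 5}`. -/
theorem avoidable_five
    (h : ∀ i j : ℕ, 0 < i → 2 * i ≤ j → Nat.Coprime i j → 5 < j →
      AdditiveCubesAvoidable {0, (i : ℤ), (j : ℤ)})
    (A : Finset ℤ) (hA : A.card = 3)
    (h2 : ∀ q p : ℤ, A ≠ {q, q + p, q + 2 * p}) (h3 : ∀ q p : ℤ, A ≠ {q, q + p, q + 3 * p})
    (h4 : ∀ q p : ℤ, A ≠ {q, q + p, q + 4 * p}) (h5 : ∀ q p : ℤ, A ≠ {q, q + p, q + 5 * p})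
    (h25 : ∀ q p : ℤ, A ≠ {q, q + 2 * p, q + 5 * p}) :
    AdditiveCubesAvoidable A := by
  refine avoidable_of_normal_forms 5 h A hA ?_
  intro q p i j hp hi hij hc hj hA'
  have : i = 1 ∨ i = 2 := by omega
  rcases this with e1 | e1
  · subst e1
    rcases (by omega : j = 2 ∨ j = 3 ∨ j = 4 ∨ j = 5) with e2 | e2 | e2 | e2
    · subst e2
      apply h2 q p
      rw [hA']
      push_cast
      rw [mul_one, mul_comm p 2]
    · subst e2
      apply h3 q p
      rw [hA']
      push_cast
      rw [mul_one, mul_comm p 3]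
    · subst e2
      apply h4 q p
      rw [hA']
      push_cast
      rw [mul_one, mul_comm p 4]
    · subst e2
      apply h5 q p
      rw [hA']
      push_cast
      rw [mul_one, mul_comm p 5]
  · subst e1
    rcases (by omega : j = 4 ∨ j = 5) with e2 | e2
    · subst e2
      exact absurd hc (by decide)
    · subst e2
      apply h25 q p
      rw [hA']
      push_cast
      rw [mul_comm p 2, mul_comm p 5]

/-! ## Ternary words -/

/-- The integer word obtained by reading the letters `0, 1, 2` as `0, a, b`. -/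
def val (w : ℕ → Fin 3) (a b : ℤ) (n : ℕ) : ℤ := if w n = 0 then 0 else if w n = 1 then a else b

theorem cnt_zero (w : ℕ → Fin 3) (c : Fin 3) : cnt w c 0 = 0 := by
  simp [cnt]

theorem cnt_succ (w : ℕ → Fin 3) (c : Fin 3) (n : ℕ) :
    cnt w c (n + 1) = cnt w c n + if w n = c then 1 else 0 := by
  unfold cnt
  rw [Finset.range_add_one, Finset.filter_insert]
  split_ifs with h
  · rw [Finset.card_insert_of_notMem (by simp)]
  · rfl

theorem cnt_sum (w : ℕ → Fin 3) (n : ℕ) : cnt w 0 n + cnt w 1 n + cnt w 2 n = n := by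
  induction n with
  | zero => simp [cnt_zero]
  | succ n ih =>
    rw [cnt_succ, cnt_succ, cnt_succ]
    have : w n = 0 ∨ w n = 1 ∨ w n = 2 := by
      generalize w n = c
      revert c; decide
    rcases this with h | h | h <;> simp [h] <;> omega

theorem dd_sum (w : ℕ → Fin 3) (p L : ℕ) : dd w 0 p L + dd w 1 p L + dd w 2 p L = 0 := by
  unfold dd
  have h1 := cnt_sum w p
  have h2 := cnt_sum w (p + L)
  have h3 := cnt_sum w (p + 2 * L)
  zify at h1 h2 h3
  linarith

theorem pre_val (w : ℕ → Fin 3) (a b : ℤ) (n : ℕ) :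
    pre (val w a b) n = a * cnt w 1 n + b * cnt w 2 n := by
  induction n with
  | zero => simp [pre, cnt_zero]
  | succ n ih =>
    have e : pre (val w a b) (n + 1) = pre (val w a b) n + val w a b n := by
      unfold pre
      rw [Finset.sum_range_succ]
    rw [e, ih, cnt_succ, cnt_succ]
    unfold val
    have : w n = 0 ∨ w n = 1 ∨ w n = 2 := by
      generalize w n = c
      revert c; decide
    rcases this with h | h | h
    · simp [h]
    · simp [h]; ring
    · simp [h]; ring

theorem block_diff (w : ℕ → Fin 3) (a b : ℤ) (p L : ℕ) :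
    (∑ k ∈ range L, val w a b (p + L + k)) - (∑ k ∈ range L, val w a b (p + k)) =
      a * dd w 1 p L + b * dd w 2 p L := by
  rw [block_eq, block_eq, pre_val, pre_val, pre_val]
  unfold dd
  have : p + L + L = p + 2 * L := by ring
  rw [this]
  ring

/-- Absence of additive cubes in terms of second differences of the counting functions. -/
theorem cubeFree_val_iff (w : ℕ → Fin 3) (a b : ℤ) :
    CubeFree (val w a b) ↔ ∀ p L : ℕ, 0 < L →
      ¬ (a * dd w 1 p L + b * dd w 2 p L = 0 ∧
         a * dd w 1 (p + L) L + b * dd w 2 (p + L) L = 0) := by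
  unfold CubeFree
  apply forall_congr'
  intro p
  apply forall_congr'
  intro L
  apply imp_congr_right
  intro _
  apply not_congr
  have h1 := block_diff w a b p L
  have h2 := block_diff w a b (p + L) L
  have e : (∑ k ∈ range L, val w a b (p + L + L + k)) =
      (∑ k ∈ range L, val w a b (p + 2 * L + k)) := by
    apply Finset.sum_congr rfl
    intro k _
    congr 1
    ring
  rw [e] at h2
  rw [← h1, ← h2]
  constructor
  · rintro ⟨h3, h4⟩
    exact ⟨by rw [h3, sub_self], by rw [h4, sub_self]⟩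
  · rintro ⟨h3, h4⟩
    exact ⟨by linarith, by linarith⟩

theorem val_mem (w : ℕ → Fin 3) (a b : ℤ) (n : ℕ) : val w a b n ∈ ({0, a, b} : Finset ℤ) := by
  unfold val
  split_ifs <;> simp

/-- A ternary word without additive cube over `{0, a, b}`, in terms of second differences. -/
theorem avoidable_of_dd (w : ℕ → Fin 3) (a b : ℤ)
    (h : ∀ p L : ℕ, 0 < L → ¬ (a * dd w 1 p L + b * dd w 2 p L = 0 ∧
      a * dd w 1 (p + L) L + b * dd w 2 (p + L) L = 0)) :
    AdditiveCubesAvoidable {0, a, b} :=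
  avoidable_of_cubeFree (val_mem w a b) ((cubeFree_val_iff w a b).2 h)

/-- The arithmetic core: `a x + b y = 0`, `a`, `b` coprime and `|x| < b` force `x = y = 0`. -/
theorem eq_zero_of_lin {a b : ℕ} (hab : Nat.Coprime a b) {x y : ℤ} {C : ℕ} (hC : C < b)
    (hx : |x| ≤ C) (h : (a : ℤ) * x + b * y = 0) : x = 0 ∧ y = 0 := by
  have hb : (0 : ℤ) < b := by
    have : 0 < b := lt_of_le_of_lt (Nat.zero_le _) hC
    exact_mod_cast this
  have hdvd : (b : ℤ) ∣ a * x := ⟨-y, by linarith⟩
  have hcop : IsCoprime (b : ℤ) (a : ℤ) := by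
    rw [Nat.isCoprime_iff_coprime]
    exact hab.symm
  have hbx : (b : ℤ) ∣ x := hcop.dvd_of_dvd_mul_left hdvd
  have hx0 : x = 0 := by
    apply Int.eq_zero_of_abs_lt_dvd hbx
    have : (C : ℤ) < b := by exact_mod_cast hC
    linarith
  refine ⟨hx0, ?_⟩
  rw [hx0, mul_zero, zero_add] at h
  exact (mul_eq_zero.1 h).resolve_left hb.ne'

/-- **Reduction theorem.** Let `w` be a ternary word without abelian cubes in which the numbers
of letters `1` in adjacent blocks of equal length differ by at most `C`.  Then `w` read over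
`{0, a, b}` has no additive cube for all coprime `a, b` with `C < b`. -/
theorem cubeFree_val {w : ℕ → Fin 3} {C : ℕ}
    (hAb : ∀ p L : ℕ, 0 < L → ¬ (∀ c : Fin 3, dd w c p L = 0 ∧ dd w c (p + L) L = 0))
    (hC : ∀ p L : ℕ, |dd w 1 p L| ≤ C)
    {a b : ℕ} (hab : Nat.Coprime a b) (hb : C < b) :
    CubeFree (val w a b) := by
  rw [cubeFree_val_iff]
  rintro p L hL ⟨h1, h2⟩
  obtain ⟨h3, h4⟩ := eq_zero_of_lin hab hb (hC p L) h1
  obtain ⟨h5, h6⟩ := eq_zero_of_lin hab hb (hC (p + L) L) h2
  apply hAb p L hL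
  intro c
  have h7 := dd_sum w p L
  have h8 := dd_sum w (p + L) L
  have : c = 0 ∨ c = 1 ∨ c = 2 := by
    revert c; decide
  rcases this with rfl | rfl | rfl
  · constructor <;> linarith
  · exact ⟨h3, h5⟩
  · exact ⟨h4, h6⟩

theorem avoidable_of_word {w : ℕ → Fin 3} {C : ℕ}
    (hAb : ∀ p L : ℕ, 0 < L → ¬ (∀ c : Fin 3, dd w c p L = 0 ∧ dd w c (p + L) L = 0))
    (hC : ∀ p L : ℕ, |dd w 1 p L| ≤ C)
    {a b : ℕ} (hab : Nat.Coprime a b) (hb : C < b) :
    AdditiveCubesAvoidable {0, (a : ℤ), (b : ℤ)} :=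
  avoidable_of_cubeFree (val_mem w a b) (cubeFree_val hAb hC hab hb)

/-- The word over natural number letters `0, i, j`. -/
def nval (w : ℕ → Fin 3) (i j : ℕ) (n : ℕ) : ℕ := if w n = 0 then 0 else if w n = 1 then i else j

theorem nval_cast (w : ℕ → Fin 3) (i j n : ℕ) : ((nval w i j n : ℕ) : ℤ) = val w i j n := by
  unfold nval val
  split_ifs <;> simp

/-- The form of `S07611`. -/
theorem nat_form {w : ℕ → Fin 3} {i j : ℕ} (h : CubeFree (val w i j)) :
    ∃ w : ℕ → ℕ, (∀ n, w n = 0 ∨ w n = i ∨ w n = j) ∧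
      ∀ p L : ℕ, 0 < L →
        ¬ ((∑ k ∈ Finset.range L, w (p + k)) = (∑ k ∈ Finset.range L, w (p + L + k)) ∧
          (∑ k ∈ Finset.range L, w (p + L + k)) =
            (∑ k ∈ Finset.range L, w (p + 2 * L + k))) := by
  refine ⟨nval w i j, ?_, ?_⟩
  · intro n
    unfold nval
    split_ifs <;> simp
  · rintro p L hL ⟨h1, h2⟩
    refine h p L hL ⟨?_, ?_⟩
    · simp only [← nval_cast]
      exact_mod_cast h1
    · simp only [← nval_cast]
      exact_mod_cast h2

/-- `S07611` from a word with `C ≤ 5`. -/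
theorem rao_of_word {w : ℕ → Fin 3} {C : ℕ} (hC5 : C ≤ 5)
    (hAb : ∀ p L : ℕ, 0 < L → ¬ (∀ c : Fin 3, dd w c p L = 0 ∧ dd w c (p + L) L = 0))
    (hC : ∀ p L : ℕ, |dd w 1 p L| ≤ C) :
    ∀ i j : ℕ, Nat.Coprime i j → i < j → 6 ≤ j →
      ∃ w : ℕ → ℕ, (∀ n, w n = 0 ∨ w n = i ∨ w n = j) ∧
        ∀ p L : ℕ, 0 < L →
          ¬ ((∑ k ∈ Finset.range L, w (p + k)) = (∑ k ∈ Finset.range L, w (p + L + k)) ∧
             (∑ k ∈ Finset.range L, w (p + L + k)) =
               (∑ k ∈ Finset.range L, w (p + 2 * L + k))) := by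
  intro i j hij _ hj
  exact nat_form (cubeFree_val hAb hC hij (by omega))

/-! ## Conversions of the hypotheses -/

/-- Abelian-cube-freeness in terms of the counting functions. -/
theorem hAb_of_cnt {w : ℕ → Fin 3}
    (h : ∀ p L : ℕ, 0 < L → ¬ (∀ c : Fin 3,
      (cnt w c (p + L) : ℤ) - cnt w c p = (cnt w c (p + 2 * L) : ℤ) - cnt w c (p + L) ∧
      (cnt w c (p + 2 * L) : ℤ) - cnt w c (p + L) =
        (cnt w c (p + 3 * L) : ℤ) - cnt w c (p + 2 * L))) :
    ∀ p L : ℕ, 0 < L → ¬ (∀ c : Fin 3, dd w c p L = 0 ∧ dd w c (p + L) L = 0) := by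
  intro p L hL h0
  apply h p L hL
  intro c
  obtain ⟨h1, h2⟩ := h0 c
  unfold dd at h1 h2
  have e1 : p + L + 2 * L = p + 3 * L := by ring
  have e2 : p + L + L = p + 2 * L := by ring
  rw [e1, e2] at h2
  constructor <;> linarith

end Pool.Agent.Helper69.Cube
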