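import Pool.Agent.Helper18.WanZ

/-!
Euler product of the zeta series (module for MP_9c56f6).
-/

set_option autoImplicit false

open PowerSeries Filter Topology Finset

namespace Pool.Agent.Helper69.WanEuler

open Pool.Agent.Helper18.Wan

theorem mul_geom (m : ℕ) (hm : 0 < m) :
    (1 - (PowerSeries.X : PowerSeries ℤ) ^ m) *
      PowerSeries.mk (fun n => if m ∣ n then (1 : ℤ) else 0) = 1 := by
  ext n
  rw [sub_mul, one_mul, map_sub, PowerSeries.coeff_mk, PowerSeries.coeff_X_pow_mul',
    PowerSeries.coeff_one]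
  by_cases h0 : n = 0
  · subst h0
    rw [if_pos (dvd_zero m), if_neg (by omega), if_pos rfl, sub_zero]
  · rw [if_neg h0]
    by_cases h1 : m ≤ n
    · rw [if_pos h1, PowerSeries.coeff_mk]
      have h2 : m ∣ n ↔ m ∣ n - m := by
        constructor
        · intro h; exact Nat.dvd_sub h (dvd_refl m)
        · intro h
          have := Nat.dvd_add h (dvd_refl m)
          rwa [Nat.sub_add_cancel h1] at this
      by_cases h3 : m ∣ n
      · rw [if_pos h3, if_pos (h2.1 h3), sub_self]
      · rw [if_neg h3, if_neg (fun h => h3 (h2.2 h)), sub_self]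
    · rw [if_neg h1, if_neg, sub_zero]
      intro h
      exact h1 (Nat.le_of_dvd (Nat.pos_of_ne_zero h0) h)

theorem invOfUnit_eq (m : ℕ) (hm : 0 < m) :
    PowerSeries.invOfUnit (1 - (PowerSeries.X : PowerSeries ℤ) ^ m) 1 =
      PowerSeries.mk (fun n => if m ∣ n then (1 : ℤ) else 0) := by
  have h1 : (1 - (PowerSeries.X : PowerSeries ℤ) ^ m) *
      PowerSeries.invOfUnit (1 - (PowerSeries.X : PowerSeries ℤ) ^ m) 1 = 1 := by
    apply PowerSeries.mul_invOfUnit
    rw [map_sub, map_one, map_pow, PowerSeries.constantCoeff_X, zero_pow hm.ne', sub_zero]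
    rfl
  have h2 := mul_geom m hm
  calc PowerSeries.invOfUnit (1 - (PowerSeries.X : PowerSeries ℤ) ^ m) 1
      = PowerSeries.invOfUnit (1 - (PowerSeries.X : PowerSeries ℤ) ^ m) 1 *
        ((1 - (PowerSeries.X : PowerSeries ℤ) ^ m) *
          PowerSeries.mk (fun n => if m ∣ n then (1 : ℤ) else 0)) := by rw [h2, mul_one]
    _ = ((1 - (PowerSeries.X : PowerSeries ℤ) ^ m) *
        PowerSeries.invOfUnit (1 - (PowerSeries.X : PowerSeries ℤ) ^ m) 1) *
          PowerSeries.mk (fun n => if m ∣ n then (1 : ℤ) else 0) := by ring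
    _ = _ := by rw [h1, one_mul]

/-- pointwise multiplication by the degree -/
noncomputable def mulF {X : Type*} (deg : X → ℕ) (D : X →₀ ℕ) : X →₀ ℕ :=
  Finsupp.onFinset D.support (fun x => D x * deg x) (fun x hx => by
    rw [Finsupp.mem_support_iff]
    intro h
    exact hx (by rw [h, Nat.zero_mul]))

/-- pointwise division by the degree -/
noncomputable def divF {X : Type*} (deg : X → ℕ) (l : X →₀ ℕ) : X →₀ ℕ :=
  Finsupp.onFinset l.support (fun x => l x / deg x) (fun x hx => by
    rw [Finsupp.mem_support_iff]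
    intro h
    exact hx (by rw [h, Nat.zero_div]))

theorem mulF_apply {X : Type*} (deg : X → ℕ) (D : X →₀ ℕ) (x : X) :
    mulF deg D x = D x * deg x := rfl

theorem divF_apply {X : Type*} (deg : X → ℕ) (l : X →₀ ℕ) (x : X) :
    divF deg l x = l x / deg x := rfl

theorem coeff_finprod {X : Type*} (deg : X → ℕ) (hpos : ∀ x, 0 < deg x)
    (hfin : ∀ d, {x | deg x ≤ d}.Finite) (d : ℕ) (s : Finset X)
    (hs : (hfin d).toFinset ⊆ s) :
    PowerSeries.coeff d (∏ x ∈ s,
      PowerSeries.invOfUnit (1 - PowerSeries.X ^ deg x : PowerSeries ℤ) 1) =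
    (divCount deg d : ℤ) := by
  classical
  have h1 : ∏ x ∈ s, PowerSeries.invOfUnit (1 - PowerSeries.X ^ deg x : PowerSeries ℤ) 1 =
      ∏ x ∈ s, PowerSeries.mk (fun n => if deg x ∣ n then (1 : ℤ) else 0) :=
    Finset.prod_congr rfl (fun x _ => invOfUnit_eq _ (hpos x))
  rw [h1, PowerSeries.coeff_prod]
  simp only [PowerSeries.coeff_mk]
  have h2 : ∀ l ∈ finsuppAntidiag s d, (∏ i ∈ s, (if deg i ∣ l i then (1 : ℤ) else 0)) =
      if (∀ i ∈ s, deg i ∣ l i) then 1 else 0 := by
    intro l _
    rw [Finset.prod_ite_zero]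
    simp
  rw [Finset.sum_congr rfl h2, ← Finset.sum_filter, Finset.sum_const, nsmul_eq_mul, mul_one]
  congr 1
  unfold divCount
  have h3 := divSet_finite deg hpos hfin d
  have h4 : Nat.card {D : X →₀ ℕ // D.sum (fun x m => m * deg x) = d} = h3.toFinset.card := by
    rw [← Set.ncard_eq_toFinset_card _ h3]
    rfl
  rw [h4]
  symm
  have hsupp : ∀ D : X →₀ ℕ, D.sum (fun x m => m * deg x) = d → D.support ⊆ s := by
    intro D hD x hx
    apply hs
    rw [Set.Finite.mem_toFinset]
    have h5 := single_le_of_sum deg hD x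
    have h6 : 1 ≤ D x := Nat.one_le_iff_ne_zero.mpr (Finsupp.mem_support_iff.mp hx)
    have h7 : 1 * deg x ≤ D x * deg x := Nat.mul_le_mul_right _ h6
    show deg x ≤ d
    omega
  have hsum : ∀ D : X →₀ ℕ, D.support ⊆ s →
      D.sum (fun x m => m * deg x) = ∑ x ∈ s, D x * deg x := by
    intro D hD
    exact Finsupp.sum_of_support_subset _ hD _ (fun i _ => Nat.zero_mul _)
  refine Finset.card_bij' (fun D _ => mulF deg D) (fun l _ => divF deg l) ?_ ?_ ?_ ?_
  · intro D hD
    rw [Set.Finite.mem_toFinset] at hD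
    have hD' : D.sum (fun x m => m * deg x) = d := hD
    rw [Finset.mem_filter, mem_finsuppAntidiag]
    refine ⟨⟨?_, ?_⟩, ?_⟩
    · rw [← hD', hsum D (hsupp D hD')]
      exact Finset.sum_congr rfl (fun x _ => mulF_apply deg D x)
    · exact (Finsupp.support_onFinset_subset).trans (hsupp D hD')
    · intro i _
      exact Dvd.intro_left _ rfl
  · intro l hl
    rw [Finset.mem_filter, mem_finsuppAntidiag] at hl
    rw [Set.Finite.mem_toFinset]
    show (divF deg l).sum (fun x m => m * deg x) = d
    have hsub : (divF deg l).support ⊆ s := (Finsupp.support_onFinset_subset).trans hl.1.2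
    rw [hsum _ hsub, ← hl.1.1]
    apply Finset.sum_congr rfl
    intro x hx
    rw [divF_apply]
    exact Nat.div_mul_cancel (hl.2 x hx)
  · intro D _
    ext x
    rw [divF_apply, mulF_apply]
    exact Nat.mul_div_cancel _ (hpos x)
  · intro l hl
    rw [Finset.mem_filter, mem_finsuppAntidiag] at hl
    ext x
    rw [mulF_apply, divF_apply]
    by_cases hx : x ∈ s
    · exact Nat.div_mul_cancel (hl.2 x hx)
    · have : l x = 0 := by
        by_contra h
        exact hx (hl.1.2 (Finsupp.mem_support_iff.2 h))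
      rw [this, Nat.zero_div, Nat.zero_mul]

open scoped PowerSeries.WithPiTopology in
/-- Euler product of the zeta series. -/
theorem hasProd_zeta {X : Type*} (deg : X → ℕ) (hpos : ∀ x, 0 < deg x)
    (hfin : ∀ d, {x | deg x ≤ d}.Finite) :
    HasProd (fun x => PowerSeries.invOfUnit (1 - PowerSeries.X ^ deg x : PowerSeries ℤ) 1)
      (zetaSeries deg) := by
  classical
  unfold HasProd
  rw [PowerSeries.WithPiTopology.tendsto_iff_coeff_tendsto]
  intro d
  apply tendsto_nhds_of_eventually_eq
  rw [SummationFilter.unconditional_filter]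
  filter_upwards [eventually_ge_atTop (hfin d).toFinset] with s hs
  rw [coeff_finprod deg hpos hfin d s hs, zetaSeries, PowerSeries.coeff_mk]

open scoped PowerSeries.WithPiTopology in
/-- The zeta series is the (unconditionally convergent) Euler product. -/
theorem tprod_zeta {X : Type*} (deg : X → ℕ) (hpos : ∀ x, 0 < deg x)
    (hfin : ∀ d, {x | deg x ≤ d}.Finite) :
    ∏' x, PowerSeries.invOfUnit (1 - PowerSeries.X ^ deg x : PowerSeries ℤ) 1 =
      zetaSeries deg :=
  (hasProd_zeta deg hpos hfin).tprod_eq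

open scoped PowerSeries.WithPiTopology in
theorem multipliable_zeta {X : Type*} (deg : X → ℕ) (hpos : ∀ x, 0 < deg x)
    (hfin : ∀ d, {x | deg x ≤ d}.Finite) :
    Multipliable (fun x => PowerSeries.invOfUnit (1 - PowerSeries.X ^ deg x : PowerSeries ℤ) 1) :=
  (hasProd_zeta deg hpos hfin).multipliable

end Pool.Agent.Helper69.WanEuler
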